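import Pool.Agent.SpF.Body

/-!
# Rooted forests given by a parent function
-/

set_option autoImplicit false

open scoped BigOperators
open Finset

namespace SpF

namespace Frst

variable {n : ℕ} {lam : Fin n → ℝ} {sub : Fin n → Frst}

/-- The parent of a node. -/
def par : (F : Frst) → Idx F → Option (Idx F)
  | .mk _ _ sub, v => match v with
    | ⟨_, none⟩ => none
    | ⟨k, some v⟩ => some (ix k (par (sub k) v))

/-- The mark of a node. -/
def mrk : (F : Frst) → Idx F → ℝ
  | .mk _ lam sub, v => match v with
    | ⟨k, none⟩ => lam k
    | ⟨k, some v⟩ => mrk (sub k) v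

theorem par_none (k : Fin n) : par (.mk n lam sub) (ix k none) = none := rfl

theorem par_some (k : Fin n) (v : Idx (sub k)) :
    par (.mk n lam sub) (ix k (some v)) = some (ix k (par (sub k) v)) := rfl

theorem mrk_none (k : Fin n) : mrk (.mk n lam sub) (ix k none) = lam k := rfl

theorem mrk_some (k : Fin n) (v : Idx (sub k)) :
    mrk (.mk n lam sub) (ix k (some v)) = mrk (sub k) v := rfl

theorem ix_cases (v : Idx (.mk n lam sub)) : ∃ k o, v = ix k o := ⟨v.1, v.2, rfl⟩

theorem ix_inj {k : Fin n} {o o' : Option (Idx (sub k))} :
    ix (lam := lam) k o = ix k o' ↔ o = o' := by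
  constructor
  · intro h
    have h2 : (⟨k, o⟩ : Σ k : Fin n, Option (Idx (sub k))) = ⟨k, o'⟩ := h
    simpa using h2
  · rintro rfl; rfl

theorem ix_fst {k l : Fin n} {o : Option (Idx (sub k))} {o' : Option (Idx (sub l))}
    (h : ix (lam := lam) k o = ix l o') : k = l := congrArg Sigma.fst h

theorem Body_iff : ∀ (F : Frst) (a : ℝ) (x : Idx F → ℝ),
    Body F a x ↔ ∀ v, (par F v).elim a x ≤ x v ∧ x v ≤ mrk F v
  | .mk n lam sub, a, x => by
    constructor
    · intro h v
      obtain ⟨k, o, rfl⟩ := ix_cases v
      obtain ⟨h1, h2, h3⟩ := h k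
      cases o with
      | none => exact ⟨h1, h2⟩
      | some v =>
        have h4 := (Body_iff (sub k) _ _).1 h3 v
        rw [par_some, mrk_some]
        refine ⟨?_, h4.2⟩
        refine le_trans (le_of_eq ?_) h4.1
        cases par (sub k) v <;> rfl
    · intro h k
      refine ⟨(h (ix k none)).1, (h (ix k none)).2, (Body_iff (sub k) _ _).2 fun v => ?_⟩
      have h4 := h (ix k (some v))
      rw [par_some, mrk_some] at h4
      refine ⟨?_, h4.2⟩
      refine le_trans (le_of_eq ?_) h4.1
      cases par (sub k) v <;> rfl

theorem PosF_of : ∀ (F : Frst), (∀ v, 0 < mrk F v) → PosF F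
  | .mk n lam sub, h => fun k =>
    ⟨h (ix k none), PosF_of (sub k) fun v => h (ix k (some v))⟩

/-- `F'` is `F` with a new leaf of mark `l` below `o` (if `b`), or `F` itself (if not `b`). -/
structure Ins (b : Prop) (F : Frst) (o : Option (Idx F)) (l : ℝ) (F' : Frst)
    (h : Idx F' → Option (Idx F)) : Prop where
  inj : Function.Injective h
  surj : ∀ v, ∃ w, h w = some v
  new : b → ∃ w, h w = none
  old : ¬ b → ∀ w, h w ≠ none
  hpar : ∀ w v, h w = some v → (par F' w).map h = (par F v).map some
  hparn : ∀ w, h w = none → (par F' w).map h = o.map some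
  hmrk : ∀ w v, h w = some v → mrk F' w = mrk F v
  hmrkn : ∀ w, h w = none → mrk F' w = l

theorem Ins.triv (F : Frst) (o : Option (Idx F)) (l : ℝ) : Ins False F o l F some where
  inj := Option.some_injective _
  surj := fun v => ⟨v, rfl⟩
  new := fun h => h.elim
  old := fun _ w => Option.some_ne_none w
  hpar := by
    intro w v h
    rw [Option.some.injEq] at h
    rw [h]
  hparn := fun w h => absurd h (Option.some_ne_none w)
  hmrk := by
    intro w v h
    rw [Option.some.injEq] at h
    rw [h]
  hmrkn := fun w h => absurd h (Option.some_ne_none w)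

/-- The empty forest. -/
def emp : Frst := .mk 0 (fun k => k.elim0) (fun k => k.elim0)

theorem emp_elim (w : Idx emp) : False := by
  obtain ⟨k, -⟩ := ix_cases (lam := fun k => k.elim0) w
  exact k.elim0

/-- New root. -/
theorem ins_root (l : ℝ) : ∃ (F' : Frst) (h : Idx F' → Option (Idx (.mk n lam sub))),
    Ins True (.mk n lam sub) none l F' h := by
  let lam' : Fin (n + 1) → ℝ := Fin.cons l lam
  let sub' : Fin (n + 1) → Frst := Fin.cons emp sub
  let h : Idx (.mk (n + 1) lam' sub') → Option (Idx (.mk n lam sub)) := fun w =>
    Fin.cases (motive := fun j => Option (Idx (sub' j)) → Option (Idx (.mk n lam sub)))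
      (fun _ => none) (fun k v => some (ix k v)) w.1 w.2
  have h0 : ∀ o, h (ix (0 : Fin (n + 1)) o) = none := fun _ => rfl
  have h1 : ∀ (k : Fin n) (o : Option (Idx (sub k))),
      h (ix (sub := sub') (Fin.succ k) o) = some (ix k o) := fun _ _ => rfl
  have hc : ∀ w : Idx (.mk (n + 1) lam' sub'), w = ix (0 : Fin (n + 1)) none ∨
      ∃ (k : Fin n) (o : Option (Idx (sub k))), w = ix (sub := sub') (Fin.succ k) o := by
    rintro ⟨j, o⟩
    revert o
    refine Fin.cases ?_ ?_ j
    · intro o
      cases o with
      | none => exact Or.inl rfl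
      | some w => exact (emp_elim w).elim
    · intro k o
      exact Or.inr ⟨k, o, rfl⟩
  refine ⟨.mk (n + 1) lam' sub', h, ⟨?_, ?_, fun _ => ⟨ix (0 : Fin (n + 1)) none, rfl⟩,
    fun hf => (hf trivial).elim, ?_, ?_, ?_, ?_⟩⟩
  · intro w w' hw
    rcases hc w with rfl | ⟨k, o, rfl⟩ <;> rcases hc w' with rfl | ⟨k', o', rfl⟩
    · rfl
    · rw [h0, h1] at hw; exact absurd hw (by simp)
    · rw [h0, h1] at hw; exact absurd hw (by simp)
    · rw [h1, h1, Option.some.injEq] at hw
      have hk := ix_fst hw
      subst hk
      rw [ix_inj] at hw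
      rw [hw]
  · intro v
    obtain ⟨k, o, rfl⟩ := ix_cases v
    exact ⟨ix (sub := sub') (Fin.succ k) o, h1 k o⟩
  · intro w v hw
    rcases hc w with rfl | ⟨k, o, rfl⟩
    · rw [h0] at hw; exact absurd hw (by simp)
    · rw [h1, Option.some.injEq] at hw
      subst hw
      cases o with
      | none => rfl
      | some v => rfl
  · intro w hw
    rcases hc w with rfl | ⟨k, o, rfl⟩
    · rfl
    · rw [h1] at hw; exact absurd hw (by simp)
  · intro w v hw
    rcases hc w with rfl | ⟨k, o, rfl⟩
    · rw [h0] at hw; exact absurd hw (by simp)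
    · rw [h1, Option.some.injEq] at hw
      subst hw
      cases o with
      | none => rfl
      | some v => rfl
  · intro w hw
    rcases hc w with rfl | ⟨k, o, rfl⟩
    · rfl
    · rw [h1] at hw; exact absurd hw (by simp)

/-- Insertion of a leaf. -/
theorem ins : ∀ (F : Frst) (o : Option (Idx F)) (l : ℝ),
    ∃ (F' : Frst) (h : Idx F' → Option (Idx F)), Ins True F o l F' h
  | .mk n lam sub, none, l => ins_root l
  | .mk n lam sub, some ⟨k, o⟩, l => by
    have hr : ∀ r : Fin n, ∃ (F' : Frst) (h : Idx F' → Option (Idx (sub r))),
        Ins (r = k) (sub r) (if e : r = k then e ▸ o else none) l F' h := by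
      intro r
      by_cases e : r = k
      · subst e
        obtain ⟨F', h, hI⟩ := ins (sub r) o l
        refine ⟨F', h, ?_⟩
        rw [dif_pos rfl]
        simpa using hI
      · refine ⟨sub r, some, ?_⟩
        have h1 := Ins.triv (sub r) (if e : r = k then e ▸ o else none) l
        simpa [e] using h1
    choose sub' h hI using hr
    let H : Idx (.mk n lam sub') → Option (Idx (.mk n lam sub)) := fun w => match w with
      | ⟨r, none⟩ => some (ix r none)
      | ⟨r, some w⟩ => (h r w).map (fun v => ix r (some v))
    have H0 : ∀ r, H (ix r none) = some (ix r none) := fun _ => rfl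
    have H1 : ∀ r w, H (ix r (some w)) = (h r w).map (fun v => ix r (some v)) := fun _ _ => rfl
    have H2 : ∀ r w v, h r w = some v → H (ix r (some w)) = some (ix r (some v)) := by
      intro r w v hv
      rw [H1, hv]; rfl
    have H3 : ∀ r w, h r w = none → H (ix r (some w)) = none := by
      intro r w hv
      rw [H1, hv]; rfl
    have hcase : ∀ r w, h r w = none ∨ ∃ v, h r w = some v := by
      intro r w
      cases h r w with
      | none => exact Or.inl rfl
      | some v => exact Or.inr ⟨v, rfl⟩
    -- images of the positions of parents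
    have H4 : ∀ r (p : Option (Idx (sub' r))) (q : Option (Idx (sub r))),
        p.map (h r) = q.map some → H (ix r p) = some (ix r q) := by
      intro r p q hpq
      cases p with
      | none =>
        cases q with
        | none => rfl
        | some v => exact absurd hpq (by simp)
      | some w =>
        cases q with
        | none => exact absurd hpq (by simp)
        | some v =>
          rw [Option.map_some, Option.map_some, Option.some.injEq] at hpq
          exact H2 r w v hpq
    refine ⟨.mk n lam sub', H, ⟨?_, ?_, ?_, fun hf => (hf trivial).elim, ?_, ?_, ?_, ?_⟩⟩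
    · intro w w' hw
      obtain ⟨r, p, rfl⟩ := ix_cases w
      obtain ⟨r', p', rfl⟩ := ix_cases w'
      cases p with
      | none =>
        cases p' with
        | none =>
          rw [H0, H0, Option.some.injEq] at hw
          have hk := ix_fst hw
          subst hk
          rfl
        | some w' =>
          rcases hcase r' w' with h1 | ⟨v, h1⟩
          · rw [H0, H3 _ _ h1] at hw; exact absurd hw (by simp)
          · rw [H0, H2 _ _ _ h1, Option.some.injEq] at hw
            have hk := ix_fst hw
            subst hk
            rw [ix_inj] at hw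
            exact absurd hw (by simp)
      | some w =>
        cases p' with
        | none =>
          rcases hcase r w with h1 | ⟨v, h1⟩
          · rw [H0, H3 _ _ h1] at hw; exact absurd hw (by simp)
          · rw [H0, H2 _ _ _ h1, Option.some.injEq] at hw
            have hk := ix_fst hw
            subst hk
            rw [ix_inj] at hw
            exact absurd hw (by simp)
        | some w' =>
          rcases hcase r w with h1 | ⟨v, h1⟩ <;> rcases hcase r' w' with h2 | ⟨v', h2⟩
          · have e1 : r = k := by
              by_contra hne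
              exact (hI r).old hne w h1
            have e2 : r' = k := by
              by_contra hne
              exact (hI r').old hne w' h2
            subst e1
            subst e2
            rw [(hI r').inj (h1.trans h2.symm)]
          · rw [H3 _ _ h1, H2 _ _ _ h2] at hw; exact absurd hw (by simp)
          · rw [H2 _ _ _ h1, H3 _ _ h2] at hw; exact absurd hw (by simp)
          · rw [H2 _ _ _ h1, H2 _ _ _ h2, Option.some.injEq] at hw
            have hk := ix_fst hw
            subst hk
            rw [ix_inj, Option.some.injEq] at hw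
            subst hw
            rw [(hI r).inj (h1.trans h2.symm)]
    · intro v
      obtain ⟨r, p, rfl⟩ := ix_cases v
      cases p with
      | none => exact ⟨ix r none, H0 r⟩
      | some v =>
        obtain ⟨w, hw⟩ := (hI r).surj v
        exact ⟨ix r (some w), H2 _ _ _ hw⟩
    · intro _
      obtain ⟨w, hw⟩ := (hI k).new rfl
      exact ⟨ix k (some w), H3 _ _ hw⟩
    · intro w v hw
      obtain ⟨r, p, rfl⟩ := ix_cases w
      cases p with
      | none =>
        rw [H0, Option.some.injEq] at hw
        subst hw
        rfl
      | some w =>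
        rcases hcase r w with h1 | ⟨v', h1⟩
        · rw [H3 _ _ h1] at hw; exact absurd hw (by simp)
        · rw [H2 _ _ _ h1, Option.some.injEq] at hw
          subst hw
          rw [par_some, par_some, Option.map_some, Option.map_some,
            H4 r _ _ ((hI r).hpar w v' h1)]
    · intro w hw
      obtain ⟨r, p, rfl⟩ := ix_cases w
      cases p with
      | none => rw [H0] at hw; exact absurd hw (by simp)
      | some w =>
        rcases hcase r w with h1 | ⟨v', h1⟩
        · have e1 : r = k := by
            by_contra hne
            exact (hI r).old hne w h1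
          subst e1
          have h2 := (hI r).hparn w h1
          rw [dif_pos rfl] at h2
          rw [par_some, Option.map_some, H4 r _ _ h2]
          rfl
        · rw [H2 _ _ _ h1] at hw; exact absurd hw (by simp)
    · intro w v hw
      obtain ⟨r, p, rfl⟩ := ix_cases w
      cases p with
      | none =>
        rw [H0, Option.some.injEq] at hw
        subst hw
        rfl
      | some w =>
        rcases hcase r w with h1 | ⟨v', h1⟩
        · rw [H3 _ _ h1] at hw; exact absurd hw (by simp)
        · rw [H2 _ _ _ h1, Option.some.injEq] at hw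
          subst hw
          exact (hI r).hmrk w v' h1
    · intro w hw
      obtain ⟨r, p, rfl⟩ := ix_cases w
      cases p with
      | none => rw [H0] at hw; exact absurd hw (by simp)
      | some w =>
        rcases hcase r w with h1 | ⟨v', h1⟩
        · exact (hI r).hmrkn w h1
        · rw [H2 _ _ _ h1] at hw; exact absurd hw (by simp)

/-- Every parent function is realized by a forest. -/
theorem exists_forest : ∀ (d : ℕ) (π : Fin d → Option (Fin d)) (lam : Fin d → ℝ),
    (∀ v w, π v = some w → w < v) →
    ∃ (F : Frst) (h : Idx F → Fin d), Function.Bijective h ∧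
      (∀ w, (par F w).map h = π (h w)) ∧ ∀ w, mrk F w = lam (h w) := by
  intro d
  induction d with
  | zero =>
    intro π lam hπ
    exact ⟨emp, fun w => (emp_elim w).elim, ⟨fun w => (emp_elim w).elim, fun v => v.elim0⟩,
      fun w => (emp_elim w).elim, fun w => (emp_elim w).elim⟩
  | succ d ih =>
    intro π lam hπ
    -- the restriction to the first `d` nodes
    have hres : ∀ v : Fin d, ∃ o : Option (Fin d), π v.castSucc = o.map Fin.castSucc := by
      intro v
      cases hv : π v.castSucc with
      | none => exact ⟨none, rfl⟩
      | some w =>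
        have hw := hπ _ _ hv
        have hw2 : (w : ℕ) < d := lt_trans (Fin.lt_def.1 hw) v.isLt
        exact ⟨some ⟨w, hw2⟩, rfl⟩
    choose π' hπ' using hres
    obtain ⟨F, h, hb, hp, hm⟩ := ih π' (fun v => lam v.castSucc) (by
      intro v w hvw
      have h1 := hπ' v
      rw [hvw, Option.map_some] at h1
      exact Fin.castSucc_lt_castSucc_iff.1 (hπ _ _ h1))
    have hlast : ∃ o : Option (Idx F), π (Fin.last d) = o.map fun w => (h w).castSucc := by
      cases hv : π (Fin.last d) with
      | none => exact ⟨none, rfl⟩
      | some w =>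
        have hw := hπ _ _ hv
        have hw2 : (w : ℕ) < d := Fin.lt_def.1 hw
        obtain ⟨w', hw'⟩ := hb.2 ⟨w, hw2⟩
        refine ⟨some w', ?_⟩
        rw [Option.map_some, hw']
        rfl
    obtain ⟨o, ho⟩ := hlast
    obtain ⟨F', g, hI⟩ := ins F o (lam (Fin.last d))
    let H : Idx F' → Fin (d + 1) := fun w => (g w).elim (Fin.last d) fun v => (h v).castSucc
    have H0 : ∀ w, g w = none → H w = Fin.last d := fun w hw => by
      show (g w).elim _ _ = _
      rw [hw]; rfl
    have H1 : ∀ w v, g w = some v → H w = (h v).castSucc := fun w v hw => by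
      show (g w).elim _ _ = _
      rw [hw]; rfl
    have hcase : ∀ w, g w = none ∨ ∃ v, g w = some v := by
      intro w
      cases g w with
      | none => exact Or.inl rfl
      | some v => exact Or.inr ⟨v, rfl⟩
    have hne : ∀ v : Fin d, v.castSucc ≠ Fin.last d := fun v => (Fin.castSucc_lt_last v).ne
    have hmap : ∀ (p : Option (Idx F')) (q : Option (Idx F)), p.map g = q.map some →
        p.map H = q.map fun v => (h v).castSucc := by
      intro p q hpq
      cases p with
      | none =>
        cases q with
        | none => rfl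
        | some v => exact absurd hpq (by simp)
      | some w =>
        cases q with
        | none => exact absurd hpq (by simp)
        | some v =>
          rw [Option.map_some, Option.map_some, Option.some.injEq] at hpq
          rw [Option.map_some, Option.map_some, H1 w v hpq]
    refine ⟨F', H, ⟨?_, ?_⟩, ?_, ?_⟩
    · intro w w' hw
      rcases hcase w with h1 | ⟨v, h1⟩ <;> rcases hcase w' with h2 | ⟨v', h2⟩
      · exact hI.inj (h1.trans h2.symm)
      · rw [H0 _ h1, H1 _ _ h2] at hw
        exact absurd hw.symm (hne _)
      · rw [H1 _ _ h1, H0 _ h2] at hw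
        exact absurd hw (hne _)
      · rw [H1 _ _ h1, H1 _ _ h2] at hw
        have h3 := hb.1 (Fin.castSucc_injective d hw)
        subst h3
        exact hI.inj (h1.trans h2.symm)
    · intro v
      refine Fin.lastCases ?_ (fun v => ?_) v
      · obtain ⟨w, hw⟩ := hI.new trivial
        exact ⟨w, H0 w hw⟩
      · obtain ⟨v', hv'⟩ := hb.2 v
        obtain ⟨w, hw⟩ := hI.surj v'
        exact ⟨w, by rw [H1 w v' hw, hv']⟩
    · intro w
      rcases hcase w with h1 | ⟨v, h1⟩
      · rw [H0 w h1, ho]
        exact hmap _ _ (hI.hparn w h1)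
      · rw [H1 w v h1, hπ', ← hp v, hmap _ _ (hI.hpar w v h1), Option.map_map]
        rfl
    · intro w
      rcases hcase w with h1 | ⟨v, h1⟩
      · rw [H0 w h1]
        exact hI.hmrkn w h1
      · rw [H1 w v h1, hI.hmrk w v h1, hm]

end Frst

/-- Linearly independent vectors: all values of the inner products are taken. -/
theorem inner_surj {d : ℕ} (u : Fin d → EuclideanSpace ℝ (Fin d)) (hu : LinearIndependent ℝ u)
    (y : Fin d → ℝ) : ∃ w, ∀ v, inner ℝ (u v) w = y v := by
  let L : EuclideanSpace ℝ (Fin d) →ₗ[ℝ] (Fin d → ℝ) :=
    LinearMap.pi fun v => (innerSL ℝ (u v)).toLinearMap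
  have hinj : Function.Injective L := by
    rw [← LinearMap.ker_eq_bot, LinearMap.ker_eq_bot']
    intro w hw
    have h1 : ∀ v, inner ℝ (u v) w = 0 := fun v => congrFun hw v
    have h2 : Submodule.span ℝ (Set.range u) = ⊤ :=
      hu.span_eq_top_of_card_eq_finrank' (by simp)
    have h3 : w ∈ Submodule.span ℝ (Set.range u) := h2 ▸ Submodule.mem_top
    have h4 : ∀ z ∈ Submodule.span ℝ (Set.range u), inner ℝ z w = 0 := by
      intro z hz
      refine Submodule.span_induction ?_ ?_ ?_ ?_ hz
      · rintro _ ⟨v, rfl⟩
        exact h1 v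
      · simp
      · intro a b _ _ ha hb
        rw [inner_add_left, ha, hb, add_zero]
      · intro r a _ ha
        rw [inner_smul_left, ha, mul_zero]
    exact inner_self_eq_zero.1 (h4 w h3)
  have hsur : Function.Surjective L :=
    (LinearMap.injective_iff_surjective_of_finrank_eq_finrank (by simp)).1 hinj
  obtain ⟨w, hw⟩ := hsur y
  exact ⟨w, fun v => congrFun hw v⟩

/-- The body of a rooted forest: `π` is the parent function, `lam` are the marks. -/
def forestBody {d : ℕ} (π : Fin d → Option (Fin d)) (lam : Fin d → ℝ)
    (u : Fin d → EuclideanSpace ℝ (Fin d)) (z : EuclideanSpace ℝ (Fin d)) :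
    Set (EuclideanSpace ℝ (Fin d)) :=
  {y | ∀ v, (π v).elim 0 (fun w => inner ℝ (u w) (y - z)) ≤ inner ℝ (u v) (y - z) ∧
    inner ℝ (u v) (y - z) ≤ lam v}

/-- Forest bodies have a colouring with `2 ^ d` colours. -/
theorem colB_forest {d : ℕ} (π : Fin d → Option (Fin d)) (hπ : ∀ v w, π v = some w → w < v)
    (lam : Fin d → ℝ) (hlam : ∀ v, 0 < lam v) (u : Fin d → EuclideanSpace ℝ (Fin d))
    (hu : LinearIndependent ℝ u) (z : EuclideanSpace ℝ (Fin d)) :
    C1G.ColB (forestBody π lam u z) (2 ^ d) := by
  obtain ⟨F, h, hb, hp, hm⟩ := Frst.exists_forest d π lam hπ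
  have hdim : Frst.dim F = d := by
    rw [← Frst.card_Idx F, Nat.card_congr (Equiv.ofBijective h hb)]
    simp
  have hF : Frst.PosF F := Frst.PosF_of F fun w => by rw [hm]; exact hlam _
  have h1 := Frst.colB F hF (fun w => (innerSL ℝ (u (h w))).toLinearMap) (by
    intro y
    obtain ⟨w, hw⟩ := inner_surj u hu fun v => y ((Equiv.ofBijective h hb).symm v)
    refine ⟨w, fun v => ?_⟩
    have h2 := hw (h v)
    have h3 : (Equiv.ofBijective h hb).symm (h v) = v :=
      (Equiv.ofBijective h hb).symm_apply_apply v
    rw [h3] at h2
    exact h2) z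
  rw [hdim] at h1
  have hset : {y | Frst.Body F 0 (fun w => (innerSL ℝ (u (h w))).toLinearMap (y - z))} =
      forestBody π lam u z := by
    ext y
    show Frst.Body F 0 (fun w => inner ℝ (u (h w)) (y - z)) ↔ _
    rw [Frst.Body_iff]
    have e : ∀ w, (Frst.par F w).elim 0 (fun w => inner ℝ (u (h w)) (y - z)) =
        (π (h w)).elim 0 (fun v => inner ℝ (u v) (y - z)) := by
      intro w
      rw [← hp w]
      cases Frst.par F w <;> rfl
    constructor
    · intro hy v
      obtain ⟨w, rfl⟩ := hb.2 v
      have h2 := hy w
      rw [e, hm] at h2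
      exact h2
    · intro hy w
      rw [e, hm]
      exact hy (h w)
  rw [hset] at h1
  exact h1

end SpF
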