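import Pool.Agent.SpF.Col
import Pool.Agent.C1G.Pc

/-!
# Rooted forests: bodies
-/

set_option autoImplicit false

open scoped BigOperators
open Finset

namespace SpF

namespace Frst

variable {n : ℕ} {lam : Fin n → ℝ} {sub : Fin n → Frst}

/-- The inequalities of the body; `a` is the coordinate of the parent of the roots. -/
def Body : (F : Frst) → ℝ → (Idx F → ℝ) → Prop
  | .mk _ lam sub, a, x => ∀ k, a ≤ x (ix k none) ∧ x (ix k none) ≤ lam k ∧
      Body (sub k) (x (ix k none)) (fun v => x (ix k (some v)))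

/-- The strict inequalities. -/
def SBody : (F : Frst) → ℝ → (Idx F → ℝ) → Prop
  | .mk _ lam sub, a, x => ∀ k, a < x (ix k none) ∧ x (ix k none) < lam k ∧
      SBody (sub k) (x (ix k none)) (fun v => x (ix k (some v)))

theorem SBody.body : ∀ (F : Frst) (a : ℝ) (x : Idx F → ℝ), SBody F a x → Body F a x
  | .mk n lam sub, a, x, h => fun k =>
    ⟨(h k).1.le, (h k).2.1.le, SBody.body (sub k) _ _ (h k).2.2⟩

theorem isOpen_SBody {E : Type} [TopologicalSpace E] : ∀ (F : Frst) (f : E → ℝ)
    (g : Idx F → E → ℝ), Continuous f → (∀ v, Continuous (g v)) →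
    IsOpen {w | SBody F (f w) (fun v => g v w)}
  | .mk n lam sub, f, g, hf, hg => by
    have h1 : {w | SBody (.mk n lam sub) (f w) (fun v => g v w)} =
        ⋂ k : Fin n, ({w | f w < g (ix k none) w} ∩ ({w | g (ix k none) w < lam k} ∩
          {w | SBody (sub k) (g (ix k none) w) (fun v => g (ix k (some v)) w)})) := by
      ext w
      simp only [Set.mem_iInter, Set.mem_inter_iff, Set.mem_ofPred_eq]
      exact Iff.rfl
    rw [h1]
    refine isOpen_iInter_of_finite fun k => ?_
    refine (isOpen_lt hf (hg _)).inter ((isOpen_lt (hg _) continuous_const).inter ?_)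
    exact isOpen_SBody (sub k) (g (ix k none)) (fun v => g (ix k (some v))) (hg _) fun v => hg _

/-- A common point. -/
theorem Mt_of_Body : ∀ (F : Frst) (s b a : ℝ) (x : Idx F → ℝ) (c a' : ℝ) (x' : Idx F → ℝ)
    (c' : ℝ) (y : Idx F → ℝ), 0 < c → 0 < c' → s ≤ b →
    Body F (c⁻¹ * (b - a)) (fun v => c⁻¹ * (y v - x v)) →
    Body F (c'⁻¹ * (b - a')) (fun v => c'⁻¹ * (y v - x' v)) → Mt F s a x c a' x' c'
  | .mk n lam sub, s, b, a, x, c, a', x', c', y, hc, hc', hs, h, h' => by
    intro k
    obtain ⟨h1, h2, h3⟩ := h k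
    obtain ⟨h1', h2', h3'⟩ := h' k
    have g1 : b - a ≤ y (ix k none) - x (ix k none) := le_of_mul_le_mul_left h1 (inv_pos.2 hc)
    have g1' : b - a' ≤ y (ix k none) - x' (ix k none) :=
      le_of_mul_le_mul_left h1' (inv_pos.2 hc')
    rw [inv_mul_le_iff₀ hc] at h2
    rw [inv_mul_le_iff₀ hc'] at h2'
    have hm : s + max (x (ix k none) - a) (x' (ix k none) - a') ≤ y (ix k none) := by
      rcases max_choice (x (ix k none) - a) (x' (ix k none) - a') with h | h <;> rw [h] <;>
        linarith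
    refine ⟨by linarith [mul_comm c (lam k)], by linarith [mul_comm c' (lam k)], ?_⟩
    exact Mt_of_Body (sub k) _ (y (ix k none)) _ _ _ _ _ _ (fun v => y (ix k (some v))) hc hc' hm
      h3 h3'

theorem exists_pos_le {n : ℕ} (f : Fin n → ℝ) (hf : ∀ k, 0 < f k) : ∃ δ > 0, ∀ k, δ ≤ f k := by
  induction n with
  | zero => exact ⟨1, one_pos, fun k => k.elim0⟩
  | succ n ih =>
    obtain ⟨δ, h1, h2⟩ := ih (fun k => f k.succ) fun k => hf _
    refine ⟨min δ (f 0), lt_min h1 (hf 0), fun k => ?_⟩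
    refine Fin.cases ?_ (fun k => ?_) k
    · exact min_le_right _ _
    · exact (min_le_left _ _).trans (h2 k)

/-- A common interior point. -/
theorem SBody_of_Ms : ∀ (F : Frst) (s a : ℝ) (x : Idx F → ℝ) (c a' : ℝ) (x' : Idx F → ℝ)
    (c' : ℝ), 0 < c → 0 < c' → Ms F s a x c a' x' c' →
    ∃ δ > 0, ∀ b, s ≤ b → b < s + δ → ∃ y : Idx F → ℝ,
      SBody F (c⁻¹ * (b - a)) (fun v => c⁻¹ * (y v - x v)) ∧
      SBody F (c'⁻¹ * (b - a')) (fun v => c'⁻¹ * (y v - x' v))
  | .mk n lam sub, s, a, x, c, a', x', c', hc, hc', h => by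
    have ih : ∀ k, ∃ δ > 0, ∀ b, s + max (x (ix k none) - a) (x' (ix k none) - a') ≤ b →
        b < s + max (x (ix k none) - a) (x' (ix k none) - a') + δ → ∃ y : Idx (sub k) → ℝ,
        SBody (sub k) (c⁻¹ * (b - x (ix k none))) (fun v => c⁻¹ * (y v - x (ix k (some v)))) ∧
        SBody (sub k) (c'⁻¹ * (b - x' (ix k none)))
          (fun v => c'⁻¹ * (y v - x' (ix k (some v)))) := fun k =>
      SBody_of_Ms (sub k) _ _ _ _ _ _ _ hc hc' (h k).2.2
    choose δ hδ hy using ih
    set M : Fin n → ℝ := fun k => max (x (ix k none) - a) (x' (ix k none) - a') with hM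
    set η : Fin n → ℝ := fun k => min (δ k) (min (x (ix k none) + lam k * c - (s + M k))
      (x' (ix k none) + lam k * c' - (s + M k))) with hη
    have hηp : ∀ k, 0 < η k := fun k =>
      lt_min (hδ k) (lt_min (by linarith [(h k).1]) (by linarith [(h k).2.1]))
    obtain ⟨ε, hε, hεη⟩ := exists_pos_le (fun k => η k / 2) fun k => half_pos (hηp k)
    refine ⟨ε, hε, fun b hb1 hb2 => ?_⟩
    have hp : ∀ k, s + M k ≤ b + M k + η k / 2 := fun k => by
      have := hηp k
      linarith
    have hq : ∀ k, b + M k + η k / 2 < s + M k + η k := fun k => by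
      have := hεη k
      linarith
    have e1 : ∀ k, η k ≤ δ k := fun k => min_le_left _ _
    have e2 : ∀ k, η k ≤ x (ix k none) + lam k * c - (s + M k) := fun k =>
      (min_le_right _ _).trans (min_le_left _ _)
    have e3 : ∀ k, η k ≤ x' (ix k none) + lam k * c' - (s + M k) := fun k =>
      (min_le_right _ _).trans (min_le_right _ _)
    have hz : ∀ k, ∃ y : Idx (sub k) → ℝ,
        SBody (sub k) (c⁻¹ * ((b + M k + η k / 2) - x (ix k none)))
          (fun v => c⁻¹ * (y v - x (ix k (some v)))) ∧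
        SBody (sub k) (c'⁻¹ * ((b + M k + η k / 2) - x' (ix k none)))
          (fun v => c'⁻¹ * (y v - x' (ix k (some v)))) := fun k =>
      hy k _ (hp k) (lt_of_lt_of_le (hq k) (by linarith [e1 k]))
    choose z hz1 hz2 using hz
    refine ⟨fun v => match v with
      | ⟨k, none⟩ => b + M k + η k / 2
      | ⟨k, some w⟩ => z k w, fun k => ⟨?_, ?_, hz1 k⟩, fun k => ⟨?_, ?_, hz2 k⟩⟩
    · show c⁻¹ * (b - a) < c⁻¹ * ((b + M k + η k / 2) - x (ix k none))
      refine mul_lt_mul_of_pos_left ?_ (inv_pos.2 hc)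
      have h1 : x (ix k none) - a ≤ M k := le_max_left _ _
      have := hηp k
      linarith
    · show c⁻¹ * ((b + M k + η k / 2) - x (ix k none)) < lam k
      rw [inv_mul_lt_iff₀ hc]
      have h1 := hq k
      have h2 := e2 k
      linarith [mul_comm c (lam k)]
    · show c'⁻¹ * (b - a') < c'⁻¹ * ((b + M k + η k / 2) - x' (ix k none))
      refine mul_lt_mul_of_pos_left ?_ (inv_pos.2 hc')
      have h1 : x' (ix k none) - a' ≤ M k := le_max_right _ _
      have := hηp k
      linarith
    · show c'⁻¹ * ((b + M k + η k / 2) - x' (ix k none)) < lam k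
      rw [inv_mul_lt_iff₀ hc']
      have h1 := hq k
      have h2 := e3 k
      linarith [mul_comm c' (lam k)]

/-- Bodies of rooted forests have a colouring with `2 ^ dim` colours. -/
theorem colB {d : ℕ} (F : Frst) (hF : PosF F) (l : Idx F → EuclideanSpace ℝ (Fin d) →ₗ[ℝ] ℝ)
    (hl : ∀ y : Idx F → ℝ, ∃ w, ∀ v, l v w = y v) (z : EuclideanSpace ℝ (Fin d)) :
    C1G.ColB {y | Body F 0 (fun v => l v (y - z))} (2 ^ dim F) := by
  intro N c x hc hm
  have hpt : ∀ i w, w ∈ (fun y => x i + c i • y) '' {y | Body F 0 (fun v => l v (y - z))} ↔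
      Body F ((c i)⁻¹ * (0 - 0)) (fun v => (c i)⁻¹ * (l v w - l v (x i + c i • z))) := by
    intro i w
    have hci := (hc i).ne'
    constructor
    · rintro ⟨y, hy, rfl⟩
      have e : (fun v => (c i)⁻¹ * (l v (x i + c i • y) - l v (x i + c i • z))) =
          fun v => l v (y - z) := by
        funext v
        rw [map_add, map_add, map_smul, map_smul, map_sub, smul_eq_mul, smul_eq_mul]
        field_simp
        ring
      show Body F ((c i)⁻¹ * (0 - 0)) (fun v => (c i)⁻¹ * (l v (x i + c i • y) - l v (x i + c i • z)))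
      rw [e, sub_zero, mul_zero]
      exact hy
    · intro h
      refine ⟨(c i)⁻¹ • (w - x i), ?_, ?_⟩
      · have e : (fun v => l v ((c i)⁻¹ • (w - x i) - z)) =
            fun v => (c i)⁻¹ * (l v w - l v (x i + c i • z)) := by
          funext v
          rw [map_sub, map_smul, map_add, map_smul, map_sub, smul_eq_mul, smul_eq_mul]
          field_simp
          ring
        show Body F 0 (fun v => l v ((c i)⁻¹ • (w - x i) - z))
        rw [e]
        rwa [sub_zero, mul_zero] at h
      · show x i + c i • (c i)⁻¹ • (w - x i) = w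
        rw [smul_smul, mul_inv_cancel₀ hci, one_smul, add_sub_cancel]
  obtain ⟨col, hcol⟩ := colour F hF (fun i v => l v (x i + c i • z)) c hc fun i j hij => by
    obtain ⟨w, h1, h2⟩ := hm i j hij
    rw [hpt] at h1 h2
    exact Mt_of_Body F 0 0 0 _ _ 0 _ _ (fun v => l v w) (hc i) (hc j) le_rfl h1 h2
  refine ⟨col, fun i j hij hd => hcol i j hij fun hs => ?_⟩
  obtain ⟨δ, hδ, h1⟩ := SBody_of_Ms F 0 0 _ _ 0 _ _ (hc i) (hc j) hs
  obtain ⟨y, h2, h3⟩ := h1 0 le_rfl (by linarith)
  obtain ⟨w, hw⟩ := hl y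
  have hcont : ∀ v, Continuous (l v) := fun v => LinearMap.continuous_of_finiteDimensional _
  have hint : ∀ i, SBody F ((c i)⁻¹ * (0 - 0)) (fun v => (c i)⁻¹ * (y v - l v (x i + c i • z))) →
      w ∈ interior ((fun y => x i + c i • y) '' {y | Body F 0 (fun v => l v (y - z))}) := by
    intro i h
    rw [mem_interior]
    refine ⟨{w | SBody F ((c i)⁻¹ * (0 - 0))
      (fun v => (c i)⁻¹ * (l v w - l v (x i + c i • z)))}, ?_, ?_, ?_⟩
    · intro w' hw'
      rw [hpt]
      exact SBody.body F _ _ hw'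
    · exact isOpen_SBody F (fun _ => (c i)⁻¹ * (0 - 0))
        (fun v w => (c i)⁻¹ * (l v w - l v (x i + c i • z))) continuous_const
        fun v => continuous_const.mul ((hcont v).sub continuous_const)
    · show SBody F ((c i)⁻¹ * (0 - 0)) (fun v => (c i)⁻¹ * (l v w - l v (x i + c i • z)))
      simp only [hw]
      exact h
  exact Set.eq_empty_iff_forall_notMem.1 hd w ⟨hint i h2, hint j h3⟩

end Frst

end SpF
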