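import Pool.Agent.SpF.Geo

/-!
# Rooted forests: the colouring theorem
-/

set_option autoImplicit false

open scoped BigOperators
open Finset

namespace SpF

namespace Frst

variable {n : ℕ} {lam : Fin n → ℝ} {sub : Fin n → Frst}

theorem finite_Ty : ∀ F : Frst, Finite (Ty F)
  | .mk n lam sub => by
    have : ∀ k, Finite (Ty (sub k)) := fun k => finite_Ty (sub k)
    exact inferInstanceAs (Finite (Σ k : Fin n, Bool × Option (Ty (sub k))))

theorem finite_Idx : ∀ F : Frst, Finite (Idx F)
  | .mk n lam sub => by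
    have : ∀ k, Finite (Idx (sub k)) := fun k => finite_Idx (sub k)
    exact inferInstanceAs (Finite (Σ k : Fin n, Option (Idx (sub k))))

theorem card_Idx : ∀ F : Frst, Nat.card (Idx F) = dim F
  | .mk n lam sub => by
    have : ∀ k, Finite (Idx (sub k)) := fun k => finite_Idx (sub k)
    have : ∀ k, Fintype (Idx (sub k)) := fun k => Fintype.ofFinite _
    show Nat.card (Σ k : Fin n, Option (Idx (sub k))) = ∑ k : Fin n, (1 + dim (sub k))
    rw [Nat.card_eq_fintype_card, Fintype.card_sigma]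
    refine Finset.sum_congr rfl fun k _ => ?_
    rw [Fintype.card_option, ← Nat.card_eq_fintype_card, card_Idx (sub k), add_comm]

variable {ι : Type}

/-- The value of the functional of a type at a pair. -/
noncomputable def Fu (F : Frst) (a : ι → ℝ) (x : ι → Idx F → ℝ) (c : ι → ℝ) (τ : Ty F)
    (i j : ι) : ℝ := Ph F (a i) (x i) (c i) (a j) (x j) (c j) τ

/-- The set of the present types. -/
noncomputable def St (F : Frst) (a : ι → ℝ) (x : ι → Idx F → ℝ) (c : ι → ℝ) (I : Finset ι) :
    Finset (Ty F) :=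
  haveI := finite_Ty F
  (Set.toFinite {τ | ∃ i ∈ I, ∃ j ∈ I, Fu F a x c τ i j = 0}).toFinset

theorem mem_St {F : Frst} {a : ι → ℝ} {x : ι → Idx F → ℝ} {c : ι → ℝ} {I : Finset ι} {τ : Ty F} :
    τ ∈ St F a x c I ↔ ∃ i ∈ I, ∃ j ∈ I, Fu F a x c τ i j = 0 := by
  unfold St
  rw [Set.Finite.mem_toFinset]
  exact Iff.rfl

theorem Sym_St (F : Frst) (a : ι → ℝ) (x : ι → Idx F → ℝ) (c : ι → ℝ) (I : Finset ι) :
    Sym (St F a x c I) := by
  intro τ hτ
  rw [mem_St] at hτ ⊢
  obtain ⟨i, hi, j, hj, h⟩ := hτ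
  refine ⟨j, hj, i, hi, ?_⟩
  unfold Fu at h ⊢
  rw [Ph_cpl]
  exact h

theorem St_mono (F : Frst) (a : ι → ℝ) (x : ι → Idx F → ℝ) (c : ι → ℝ) {I J : Finset ι}
    (h : I ⊆ J) : St F a x c I ⊆ St F a x c J := by
  intro τ hτ
  rw [mem_St] at hτ ⊢
  obtain ⟨i, hi, j, hj, h1⟩ := hτ
  exact ⟨i, h hi, j, h hj, h1⟩

open Classical in
theorem colour_aux (F : Frst) (a : ι → ℝ) (x : ι → Idx F → ℝ) (c : ι → ℝ) (m0 : ℝ) :
    ∀ (N : ℕ) (I : Finset ι), (St F a x c I).card ≤ N → (∀ i ∈ I, 0 ≤ c i) →
    (∀ τ, ∀ i ∈ I, ∀ j ∈ I, 0 ≤ Fu F a x c τ i j) →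
    (∀ i ∈ I, ∀ j ∈ I, 0 < a j + mu F m0 * c j) →
    ∃ col : ι → ℕ, (∀ i ∈ I, col i ≤ V F (St F a x c I)) ∧
      ∀ i ∈ I, ∀ j ∈ I, (∃ τ, Fu F a x c τ i j = 0) → col i ≠ col j := by
  intro N
  induction N with
  | zero =>
    intro I h0 _ _ _
    refine ⟨fun _ => 0, fun _ _ => Nat.zero_le _, fun i hi j hj h => ?_⟩
    obtain ⟨τ, hτ⟩ := h
    have h1 : τ ∈ St F a x c I := mem_St.2 ⟨i, hi, j, hj, hτ⟩
    exact absurd h0 (by have := card_pos.2 ⟨τ, h1⟩; omega)
  | succ N ih =>
    intro I hN hc hF hD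
    by_cases he : St F a x c I = ∅
    · refine ⟨fun _ => 0, fun _ _ => Nat.zero_le _, fun i hi j hj h => ?_⟩
      obtain ⟨τ, hτ⟩ := h
      have h1 : τ ∈ St F a x c I := mem_St.2 ⟨i, hi, j, hj, hτ⟩
      rw [he] at h1
      exact absurd h1 (notMem_empty _)
    · obtain ⟨τ1, hτ1⟩ := Finset.nonempty_iff_ne_empty.2 he
      have hFv : ∀ (τ : Ty F) i j, Fv (fun _ : Unit => fun _ : ι => (0 : ℝ))
          (fun _ : Unit => fun _ : ι => (0 : ℝ)) F a x c () τ i j = Fu F a x c τ i j := by
        intro τ i j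
        unfold Fv Fu
        ring
      have hZr : ∀ (J : Finset ι) (τ : Ty F), Zr (fun _ : Unit => fun _ : ι => (0 : ℝ))
          (fun _ : Unit => fun _ : ι => (0 : ℝ)) F a x c J () τ ↔ τ ∈ St F a x c J := by
        intro J τ
        rw [mem_St]
        unfold Zr
        simp only [hFv]
      obtain ⟨P, hcl, J, hJ, hdisj, ⟨⟩, τ0, ht0, hz0, hn1, hn2⟩ :=
        geo F Unit (fun _ => fun _ => (0 : ℝ)) (fun _ => fun _ => (0 : ℝ)) a x c I m0 hc
          (by
            rintro ⟨⟩ τ i hi j hj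
            rw [hFv]
            exact hF τ i hi j hj)
          (by
            rintro ⟨⟩ i hi j hj
            have h1 := hD i hi j hj
            have h2 := hD j hj i hi
            constructor <;> linarith)
          (by rintro ⟨⟩ ⟨⟩ τ h; exact h)
          ⟨(), τ1, (hZr I τ1).2 hτ1⟩
      rw [hZr] at hz0 hn1 hn2
      set S1 := St F a x c J with hS1
      set S2 := St F a x c (I \ J) with hS2
      have s1 : S1 ⊆ St F a x c I := St_mono F a x c hJ
      have s2 : S2 ⊆ St F a x c I := St_mono F a x c sdiff_subset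
      have hV := V_split F P (St F a x c I) S1 S2 (Sym_St F a x c I) (Sym_St F a x c J)
        (Sym_St F a x c _) s1 s2 (by
          have e : (St F a x c I : Set (Ty F)) = {τ | ∃ κ, Zr (fun _ : Unit => fun _ : ι => (0 : ℝ))
              (fun _ : Unit => fun _ : ι => (0 : ℝ)) F a x c I κ τ} := by
            ext τ
            constructor
            · intro h; exact ⟨(), (hZr I τ).2 h⟩
            · rintro ⟨⟨⟩, h⟩; exact (hZr I τ).1 h
          rw [e]
          exact hcl)
        (fun τ h1 h2 h3 => hdisj () τ h2 ((hZr _ _).2 h1) ((hZr _ _).2 h3))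
        ⟨τ0, hz0, ht0, hn1, hn2⟩
      have c1 : S1.card < (St F a x c I).card :=
        card_lt_card ⟨s1, fun h => hn1 (h hz0)⟩
      have c2 : S2.card < (St F a x c I).card :=
        card_lt_card ⟨s2, fun h => hn2 (h hz0)⟩
      obtain ⟨f1, hf1, hp1⟩ := ih J (show S1.card ≤ N by omega) (fun i hi => hc i (hJ hi))
        (fun τ i hi j hj => hF τ i (hJ hi) j (hJ hj)) (fun i hi j hj => hD i (hJ hi) j (hJ hj))
      obtain ⟨f2, hf2, hp2⟩ := ih (I \ J) (show S2.card ≤ N by omega)
        (fun i hi => hc i (mem_sdiff.1 hi).1)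
        (fun τ i hi j hj => hF τ i (mem_sdiff.1 hi).1 j (mem_sdiff.1 hj).1)
        (fun i hi j hj => hD i (mem_sdiff.1 hi).1 j (mem_sdiff.1 hj).1)
      change ∀ i ∈ J, f1 i ≤ V F S1 at hf1
      change ∀ i ∈ I \ J, f2 i ≤ V F S2 at hf2
      refine ⟨fun i => if i ∈ J then f1 i else V F S1 + 1 + f2 i, ?_, ?_⟩
      · intro i hi
        by_cases h1 : i ∈ J
        · have := hf1 i h1
          simp only [h1, if_true]
          omega
        · have := hf2 i (mem_sdiff.2 ⟨hi, h1⟩)
          simp only [h1, if_false]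
          omega
      · intro i hi j hj h
        by_cases h1 : i ∈ J <;> by_cases h2 : j ∈ J
        · simp only [h1, h2, if_true]
          exact hp1 i h1 j h2 h
        · simp only [h1, h2, if_true, if_false]
          have := hf1 i h1
          omega
        · simp only [h1, h2, if_true, if_false]
          have := hf1 j h2
          omega
        · simp only [h1, h2, if_false]
          have := hp2 i (mem_sdiff.2 ⟨hi, h1⟩) j (mem_sdiff.2 ⟨hj, h2⟩) h
          omega

/-- The meeting condition of two members: `s` is the least possible coordinate of the parent. -/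
def Mt : (F : Frst) → ℝ → (a : ℝ) → (Idx F → ℝ) → ℝ → (a' : ℝ) → (Idx F → ℝ) → ℝ → Prop
  | .mk _ lam sub, s, a, x, c, a', x', c' => ∀ k,
      s + max (x (ix k none) - a) (x' (ix k none) - a') ≤ x (ix k none) + lam k * c ∧
      s + max (x (ix k none) - a) (x' (ix k none) - a') ≤ x' (ix k none) + lam k * c' ∧
      Mt (sub k) (s + max (x (ix k none) - a) (x' (ix k none) - a')) (x (ix k none))
        (fun v => x (ix k (some v))) c (x' (ix k none)) (fun v => x' (ix k (some v))) c'

/-- The same with strict inequalities. -/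
def Ms : (F : Frst) → ℝ → (a : ℝ) → (Idx F → ℝ) → ℝ → (a' : ℝ) → (Idx F → ℝ) → ℝ → Prop
  | .mk _ lam sub, s, a, x, c, a', x', c' => ∀ k,
      s + max (x (ix k none) - a) (x' (ix k none) - a') < x (ix k none) + lam k * c ∧
      s + max (x (ix k none) - a) (x' (ix k none) - a') < x' (ix k none) + lam k * c' ∧
      Ms (sub k) (s + max (x (ix k none) - a) (x' (ix k none) - a')) (x (ix k none))
        (fun v => x (ix k (some v))) c (x' (ix k none)) (fun v => x' (ix k (some v))) c'

theorem Mt_mu : ∀ (F : Frst) (s a : ℝ) (x : Idx F → ℝ) (c a' : ℝ) (x' : Idx F → ℝ) (c' m0 : ℝ),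
    Mt F s a x c a' x' c' → (s ≤ a + m0 * c → s ≤ a + mu F m0 * c) ∧
      (s ≤ a' + m0 * c' → s ≤ a' + mu F m0 * c')
  | .mk n lam sub, s, a, x, c, a', x', c', m0, h => by
    rcases mu_eq (lam := lam) (sub := sub) m0 with h1 | ⟨k, h1⟩
    · rw [h1]; exact ⟨id, id⟩
    · rw [h1]
      obtain ⟨h2, h3, h4⟩ := h k
      obtain ⟨h5, h6⟩ := Mt_mu (sub k) _ _ _ _ _ _ _ (lam k) h4
      have h7 := h5 h2
      have h8 := h6 h3
      have h9 := le_max_left (x (ix k none) - a) (x' (ix k none) - a')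
      have h10 := le_max_right (x (ix k none) - a) (x' (ix k none) - a')
      exact ⟨fun _ => by linarith, fun _ => by linarith⟩

/-- Members which meet: all functionals are at least `s`. -/
theorem Mt_Ph : ∀ (F : Frst) (s a : ℝ) (x : Idx F → ℝ) (c a' : ℝ) (x' : Idx F → ℝ) (c' : ℝ),
    Mt F s a x c a' x' c' → ∀ τ, s ≤ Ph F a x c a' x' c' τ
  | .mk n lam sub, s, a, x, c, a', x', c', h, τ => by
    obtain ⟨k, b, o, rfl⟩ := nd_cases τ
    obtain ⟨h2, h3, h4⟩ := h k
    have h9 := le_max_left (x (ix k none) - a) (x' (ix k none) - a')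
    have h10 := le_max_right (x (ix k none) - a) (x' (ix k none) - a')
    cases o with
    | none =>
      obtain ⟨h5, h6⟩ := Mt_mu (sub k) _ _ _ _ _ _ _ (lam k) h4
      have h7 := h5 h2
      have h8 := h6 h3
      cases b with
      | true => rw [Ph_tn]; linarith
      | false => rw [Ph_fn]; linarith
    | some τ' =>
      have h5 := Mt_Ph (sub k) _ _ _ _ _ _ _ h4 τ'
      cases b with
      | true => rw [Ph_ts]; linarith
      | false => rw [Ph_fs]; linarith

/-- Members which do not meet strictly: some functional is at most `s`. -/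
theorem Ms_Ph : ∀ (F : Frst) (s a : ℝ) (x : Idx F → ℝ) (c a' : ℝ) (x' : Idx F → ℝ) (c' m0 : ℝ),
    0 ≤ c → 0 ≤ c' → ¬ Ms F s a x c a' x' c' →
    (∃ τ, Ph F a x c a' x' c' τ ≤ s) ∨ a + mu F m0 * c ≤ s ∨ a' + mu F m0 * c' ≤ s
  | .mk n lam sub, s, a, x, c, a', x', c', m0, hc, hc', h => by
    have h1 : ∃ k, ¬ (s + max (x (ix k none) - a) (x' (ix k none) - a') <
          x (ix k none) + lam k * c ∧
        s + max (x (ix k none) - a) (x' (ix k none) - a') < x' (ix k none) + lam k * c' ∧
        Ms (sub k) (s + max (x (ix k none) - a) (x' (ix k none) - a')) (x (ix k none))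
          (fun v => x (ix k (some v))) c (x' (ix k none)) (fun v => x' (ix k (some v))) c') := by
      by_contra hcon
      push Not at hcon
      exact h fun k => by
        have := hcon k
        tauto
    obtain ⟨k, h1⟩ := h1
    set M := max (x (ix k none) - a) (x' (ix k none) - a') with hM
    have hmu := mu_le_self (sub k) (lam k)
    have e1 := mul_le_mul_of_nonneg_right hmu hc
    have e2 := mul_le_mul_of_nonneg_right hmu hc'
    have hD : (∃ τ, Ph (sub k) (x (ix k none)) (fun v => x (ix k (some v))) c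
        (x' (ix k none)) (fun v => x' (ix k (some v))) c' τ ≤ s + M) ∨
        x (ix k none) + mu (sub k) (lam k) * c ≤ s + M ∨
        x' (ix k none) + mu (sub k) (lam k) * c' ≤ s + M := by
      by_cases g1 : s + M < x (ix k none) + lam k * c
      · by_cases g2 : s + M < x' (ix k none) + lam k * c'
        · exact Ms_Ph (sub k) _ _ _ _ _ _ _ (lam k) hc hc' fun g3 => h1 ⟨g1, g2, g3⟩
        · right; right; linarith
      · right; left; linarith
    have hm : mu (.mk n lam sub) m0 ≤ mu (sub k) (lam k) := mu_le_sub m0 k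
    have f1 := mul_le_mul_of_nonneg_right hm hc
    have f2 := mul_le_mul_of_nonneg_right hm hc'
    rcases max_choice (x (ix k none) - a) (x' (ix k none) - a') with hM1 | hM1
    · rw [← hM] at hM1
      rcases hD with ⟨τ, hτ⟩ | hD | hD
      · left
        refine ⟨nd k true (some τ), ?_⟩
        rw [Ph_ts]; linarith
      · right; left; linarith
      · left
        refine ⟨nd k true none, ?_⟩
        rw [Ph_tn]; linarith
    · rw [← hM] at hM1
      rcases hD with ⟨τ, hτ⟩ | hD | hD
      · left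
        refine ⟨nd k false (some τ), ?_⟩
        rw [Ph_fs]; linarith
      · left
        refine ⟨nd k false none, ?_⟩
        rw [Ph_fn]; linarith
      · right; right; linarith

/-- The functionals at a pair of equal members. -/
theorem Ph_self : ∀ (F : Frst) (a : ℝ) (x : Idx F → ℝ) (c m0 : ℝ), 0 ≤ c → ∀ τ,
    a + mu F m0 * c ≤ Ph F a x c a x c τ
  | .mk n lam sub, a, x, c, m0, hc, τ => by
    obtain ⟨k, b, o, rfl⟩ := nd_cases τ
    have hm : mu (.mk n lam sub) m0 ≤ mu (sub k) (lam k) := mu_le_sub m0 k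
    have f1 := mul_le_mul_of_nonneg_right hm hc
    cases o with
    | none =>
      cases b with
      | true => rw [Ph_tn]; linarith
      | false => rw [Ph_fn]; linarith
    | some τ' =>
      have h5 := Ph_self (sub k) (x (ix k none)) (fun v => x (ix k (some v))) c (lam k) hc τ'
      cases b with
      | true => rw [Ph_ts]; linarith
      | false => rw [Ph_fs]; linarith

/-- The colouring theorem for rooted forests. -/
theorem colour (F : Frst) (hF : PosF F) {N : ℕ} (x : Fin N → Idx F → ℝ) (c : Fin N → ℝ)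
    (hc : ∀ i, 0 < c i)
    (hm : ∀ i j, i ≠ j → Mt F 0 0 (x i) (c i) 0 (x j) (c j)) :
    ∃ col : Fin N → Fin (2 ^ dim F), ∀ i j, i ≠ j → ¬ Ms F 0 0 (x i) (c i) 0 (x j) (c j) →
      col i ≠ col j := by
  classical
  have hmu : 0 < mu F 1 := mu_pos F hF 1 one_pos
  have hnn : ∀ τ, ∀ i ∈ (univ : Finset (Fin N)), ∀ j ∈ (univ : Finset (Fin N)),
      0 ≤ Fu F (fun _ => (0 : ℝ)) x c τ i j := by
    intro τ i _ j _
    unfold Fu
    by_cases h : i = j
    · subst h
      have h1 := Ph_self F 0 (x i) (c i) 1 (hc i).le τ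
      have h2 := mul_pos hmu (hc i)
      linarith
    · exact Mt_Ph F 0 0 (x i) (c i) 0 (x j) (c j) (hm i j h) τ
  obtain ⟨col, h1, h2⟩ := colour_aux F (fun _ : Fin N => (0 : ℝ)) x c 1 _ univ le_rfl
    (fun i _ => (hc i).le) hnn (fun i _ j _ => by
      have := mul_pos hmu (hc j)
      linarith)
  have h3 := V_lt F _ (Sym_St F (fun _ : Fin N => (0 : ℝ)) x c univ)
  refine ⟨fun i => ⟨col i, by have := h1 i (mem_univ i); omega⟩, fun i j hij hs he => ?_⟩
  have h4 : col i = col j := congrArg Fin.val he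
  refine h2 i (mem_univ i) j (mem_univ j) ?_ h4
  rcases Ms_Ph F 0 0 (x i) (c i) 0 (x j) (c j) 1 (hc i).le (hc j).le hs with ⟨τ, hτ⟩ | hD | hD
  · exact ⟨τ, le_antisymm hτ (hnn τ i (mem_univ i) j (mem_univ j))⟩
  · have := mul_pos hmu (hc i)
    linarith
  · have := mul_pos hmu (hc j)
    linarith

end Frst

end SpF
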