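import Mathlib

/-!
# Rooted forests: types and the weight of a set of types
-/

set_option autoImplicit false

open scoped BigOperators
open Finset

namespace SpF

/-- A finite rooted forest with real marks: `n` trees; the root of the `k`-th tree has the mark
`lam k`, the forest below this root is `sub k`. -/
inductive Frst : Type
  | mk (n : ℕ) (lam : Fin n → ℝ) (sub : Fin n → Frst) : Frst

namespace Frst

/-- The nodes of the forest. -/
def Idx : Frst → Type
  | .mk n _ sub => Σ k : Fin n, Option (Idx (sub k))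

/-- A type: a node and a bit for every node on the path from the root to it. -/
def Ty : Frst → Type
  | .mk n _ sub => Σ k : Fin n, Bool × Option (Ty (sub k))

/-- The number of nodes. -/
def dim : Frst → ℕ
  | .mk n _ sub => ∑ k : Fin n, (1 + dim (sub k))

variable {n : ℕ} {lam : Fin n → ℝ} {sub : Fin n → Frst}

/-- Constructor of types. -/
def nd (k : Fin n) (s : Bool) (o : Option (Ty (sub k))) : Ty (.mk n lam sub) :=
  (⟨k, s, o⟩ : Σ k : Fin n, Bool × Option (Ty (sub k)))

/-- Constructor of nodes. -/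
def ix (k : Fin n) (o : Option (Idx (sub k))) : Idx (.mk n lam sub) :=
  (⟨k, o⟩ : Σ k : Fin n, Option (Idx (sub k)))

/-- The tree of a type. -/
def tr (τ : Ty (.mk n lam sub)) : Fin n := Sigma.fst (β := fun k => Bool × Option (Ty (sub k))) τ

@[simp] theorem tr_nd (k : Fin n) (s : Bool) (o : Option (Ty (sub k))) :
    tr (nd (lam := lam) k s o) = k := rfl

theorem nd_cases (τ : Ty (.mk n lam sub)) : ∃ k s o, τ = nd k s o :=
  ⟨τ.1, τ.2.1, τ.2.2, rfl⟩

theorem nd_inj {k : Fin n} {s s' : Bool} {o o' : Option (Ty (sub k))} :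
    nd (lam := lam) k s o = nd k s' o' ↔ s = s' ∧ o = o' := by
  constructor
  · intro h
    have h2 : (⟨k, s, o⟩ : Σ k : Fin n, Bool × Option (Ty (sub k))) = ⟨k, s', o'⟩ := h
    simpa using h2
  · rintro ⟨rfl, rfl⟩; rfl

/-- All bits flipped. -/
def cpl : (F : Frst) → Ty F → Ty F
  | .mk _ _ sub, τ => nd τ.1 (!τ.2.1) (τ.2.2.map (cpl (sub τ.1)))

@[simp] theorem cpl_nd (k : Fin n) (s : Bool) (o : Option (Ty (sub k))) :
    cpl (.mk n lam sub) (nd k s o) = nd k (!s) (o.map (cpl (sub k))) := rfl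

theorem cpl_cpl : ∀ (F : Frst) (τ : Ty F), cpl F (cpl F τ) = τ
  | .mk n lam sub, τ => by
    obtain ⟨k, s, o, rfl⟩ := nd_cases τ
    rw [cpl_nd, cpl_nd, nd_inj]
    refine ⟨by simp, ?_⟩
    cases o with
    | none => rfl
    | some τ' => simp [cpl_cpl (sub k) τ']

theorem cpl_ne : ∀ (F : Frst) (τ : Ty F), cpl F τ ≠ τ
  | .mk n lam sub, τ => by
    obtain ⟨k, s, o, rfl⟩ := nd_cases τ
    rw [cpl_nd, Ne, nd_inj]
    rintro ⟨h, -⟩
    cases s <;> simp at h

theorem nd_injOn {k : Fin n} (X : Set (Ty (sub k))) (s : Bool) :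
    Set.InjOn (fun τ : Ty (sub k) => nd (lam := lam) k s (some τ)) X := by
  intro a _ b _ h
  simpa [nd_inj] using h

/-- The types below the root of tree `k` which occur with bit `s` at this root. -/
noncomputable def sl (S : Finset (Ty (.mk n lam sub))) (k : Fin n) (s : Bool) :
    Finset (Ty (sub k)) :=
  S.preimage (fun τ => nd k s (some τ)) (nd_injOn _ s)

@[simp] theorem mem_sl {S : Finset (Ty (.mk n lam sub))} {k : Fin n} {s : Bool} {τ : Ty (sub k)} :
    τ ∈ sl S k s ↔ nd k s (some τ) ∈ S := Finset.mem_preimage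

open Classical in
/-- Types which occur with both bits. -/
noncomputable def tt (S : Finset (Ty (.mk n lam sub))) (k : Fin n) : Finset (Ty (sub k)) :=
  sl S k true ∩ sl S k false

open Classical in
/-- Types which occur with bit `false` only. -/
noncomputable def rr (S : Finset (Ty (.mk n lam sub))) (k : Fin n) : Finset (Ty (sub k)) :=
  sl S k false \ sl S k true

open Classical in
/-- Does a type end at the root of tree `k`? -/
noncomputable def bb (S : Finset (Ty (.mk n lam sub))) (k : Fin n) : ℕ :=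
  if nd k false none ∈ S then 1 else 0

@[simp] theorem mem_tt {S : Finset (Ty (.mk n lam sub))} {k : Fin n} {τ : Ty (sub k)} :
    τ ∈ tt S k ↔ nd k true (some τ) ∈ S ∧ nd k false (some τ) ∈ S := by
  simp [tt]

@[simp] theorem mem_rr {S : Finset (Ty (.mk n lam sub))} {k : Fin n} {τ : Ty (sub k)} :
    τ ∈ rr S k ↔ nd k false (some τ) ∈ S ∧ nd k true (some τ) ∉ S := by
  simp [rr]

/-- The weight of a set of types. -/
noncomputable def V : (F : Frst) → Finset (Ty F) → ℕ
  | .mk n _ sub, S => ∏ k : Fin n, (1 + (2 * V (sub k) (tt S k) + (rr S k).card + bb S k)) - 1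

/-- The weight of the part of tree `k`. -/
noncomputable def vk (S : Finset (Ty (.mk n lam sub))) (k : Fin n) : ℕ :=
  2 * V (sub k) (tt S k) + (rr S k).card + bb S k

theorem V_mk (S : Finset (Ty (.mk n lam sub))) :
    V (.mk n lam sub) S = ∏ k : Fin n, (1 + vk S k) - 1 := rfl

theorem V_mk' (S : Finset (Ty (.mk n lam sub))) :
    V (.mk n lam sub) S + 1 = ∏ k : Fin n, (1 + vk S k) := by
  rw [V_mk]
  exact Nat.sub_add_cancel (Nat.one_le_iff_ne_zero.2 (Finset.prod_ne_zero_iff.2 fun k _ => by omega))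

/-- Closed under complements. -/
def Sym {F : Frst} (S : Finset (Ty F)) : Prop := ∀ τ ∈ S, cpl F τ ∈ S

theorem Sym.iff {F : Frst} {S : Finset (Ty F)} (h : Sym S) (τ : Ty F) : cpl F τ ∈ S ↔ τ ∈ S :=
  ⟨fun h1 => by simpa [cpl_cpl] using h _ h1, h τ⟩

theorem Sym.nd_iff {S : Finset (Ty (.mk n lam sub))} (h : Sym S) (k : Fin n) (s : Bool)
    (τ : Ty (sub k)) : nd k s (some (cpl (sub k) τ)) ∈ S ↔ nd k (!s) (some τ) ∈ S := by
  rw [← h.iff (nd k (!s) (some τ)), cpl_nd]
  simp

theorem Sym.tt {S : Finset (Ty (.mk n lam sub))} (h : Sym S) (k : Fin n) : Sym (tt S k) := by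
  intro τ hτ
  rw [mem_tt] at hτ ⊢
  rw [h.nd_iff, h.nd_iff]
  exact ⟨hτ.2, hτ.1⟩

open Classical in
theorem Sym.union {F : Frst} {A B : Finset (Ty F)} (hA : Sym A) (hB : Sym B) : Sym (A ∪ B) := by
  intro τ hτ
  rcases mem_union.1 hτ with h | h
  · exact mem_union_left _ (hA τ h)
  · exact mem_union_right _ (hB τ h)

open Classical in
theorem Sym.sdiff {F : Frst} {A B : Finset (Ty F)} (hA : Sym A) (hB : Sym B) : Sym (A \ B) := by
  intro τ hτ
  rw [mem_sdiff] at hτ ⊢
  rw [hA.iff, hB.iff]
  exact hτ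

theorem prod_sa {n : ℕ} (a b c : Fin n → ℕ) (h : ∀ k, a k + b k ≤ c k) :
    ∏ k, (1 + a k) + ∏ k, (1 + b k) ≤ ∏ k, (1 + c k) + 1 := by
  have key : ∀ s : Finset (Fin n), ∏ k ∈ s, (1 + a k) + ∏ k ∈ s, (1 + b k) ≤
      ∏ k ∈ s, (1 + c k) + 1 := by
    intro s
    classical
    induction s using Finset.induction with
    | empty => simp
    | insert k s hk ih =>
      rw [prod_insert hk, prod_insert hk, prod_insert hk]
      have ha : 1 ≤ ∏ k ∈ s, (1 + a k) :=
        Nat.one_le_iff_ne_zero.2 (Finset.prod_ne_zero_iff.2 fun k _ => by omega)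
      have hb : 1 ≤ ∏ k ∈ s, (1 + b k) :=
        Nat.one_le_iff_ne_zero.2 (Finset.prod_ne_zero_iff.2 fun k _ => by omega)
      obtain ⟨A, hA⟩ := Nat.exists_eq_add_of_le ha
      obtain ⟨B, hB⟩ := Nat.exists_eq_add_of_le hb
      rw [hA, hB] at ih ⊢
      have hc : 1 + A + B ≤ ∏ k ∈ s, (1 + c k) := by omega
      calc (1 + a k) * (1 + A) + (1 + b k) * (1 + B)
          ≤ (1 + (a k + b k)) * (1 + A + B) + 1 := by nlinarith [Nat.zero_le (a k * B), Nat.zero_le (b k * A)]
        _ ≤ (1 + c k) * ∏ k ∈ s, (1 + c k) + 1 :=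
            Nat.add_le_add_right (Nat.mul_le_mul (by have := h k; omega) hc) 1
  exact key univ


theorem sum_le_prod {n : ℕ} (a : Fin n → ℕ) : ∑ k, a k + 1 ≤ ∏ k, (1 + a k) := by
  have key : ∀ s : Finset (Fin n), ∑ k ∈ s, a k + 1 ≤ ∏ k ∈ s, (1 + a k) := by
    intro s
    classical
    induction s using Finset.induction with
    | empty => simp
    | insert k s hk ih =>
      rw [prod_insert hk, sum_insert hk]
      calc a k + ∑ k ∈ s, a k + 1 ≤ (1 + a k) * (∑ k ∈ s, a k + 1) := by
            nlinarith [Nat.zero_le (a k * ∑ k ∈ s, a k)]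
        _ ≤ _ := Nat.mul_le_mul le_rfl ih
  exact key univ

open Classical in
theorem card_sl_true_le {S : Finset (Ty (.mk n lam sub))} (h : Sym S) (k : Fin n) :
    (sl S k true).card ≤ (sl S k false).card := by
  refine Finset.card_le_card_of_injOn (cpl (sub k)) ?_ ?_
  · intro τ hτ
    have h1 : τ ∈ sl S k true := hτ
    rw [mem_sl] at h1
    show cpl (sub k) τ ∈ (sl S k false : Set (Ty (sub k)))
    rw [Finset.mem_coe, mem_sl, h.nd_iff]
    exact h1
  · intro a _ b _ hab
    rw [← cpl_cpl (sub k) a, ← cpl_cpl (sub k) b, hab]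

open Classical in
theorem card_sl_false (S : Finset (Ty (.mk n lam sub))) (k : Fin n) :
    (sl S k false).card = (tt S k).card + (rr S k).card := by
  rw [tt, rr, Finset.inter_comm, Finset.card_inter_add_card_sdiff]

open Classical in
theorem lbk {S : Finset (Ty (.mk n lam sub))} (h : Sym S) (k : Fin n)
    (ih : (tt S k).card ≤ 2 * V (sub k) (tt S k)) :
    (S.filter fun τ => tr τ = k).card ≤ 2 * vk S k := by
  have hbt : nd k true none ∈ S ↔ nd k false none ∈ S := by
    rw [← h.iff (nd k false none), cpl_nd]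
    simp
  have hsub : (S.filter fun τ => tr τ = k) ⊆
      ((sl S k true).image fun τ => nd k true (some τ)) ∪
      (((sl S k false).image fun τ => nd k false (some τ)) ∪
        if nd k false none ∈ S then {nd k true none, nd k false none} else ∅) := by
    intro τ hτ
    obtain ⟨hS, hk⟩ := mem_filter.1 hτ
    obtain ⟨l, s, o, rfl⟩ := nd_cases τ
    rw [tr_nd] at hk
    subst hk
    rw [mem_union, mem_union, mem_image, mem_image]
    cases o with
    | some τ' =>
      cases s with
      | true => exact Or.inl ⟨τ', mem_sl.2 hS, rfl⟩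
      | false => exact Or.inr (Or.inl ⟨τ', mem_sl.2 hS, rfl⟩)
    | none =>
      refine Or.inr (Or.inr ?_)
      cases s with
      | true => rw [if_pos (hbt.1 hS)]; simp
      | false => rw [if_pos hS]; simp
  refine le_trans (card_le_card hsub) (le_trans (card_union_le _ _) ?_)
  refine le_trans (add_le_add card_image_le (le_trans (card_union_le _ _)
    (add_le_add card_image_le (?_ : _ ≤ 2 * bb S k)))) ?_
  · unfold bb
    split_ifs with hb
    · exact le_trans (card_insert_le _ _) (by simp)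
    · simp
  · have h1 := card_sl_true_le h k
    rw [card_sl_false] at h1
    rw [card_sl_false]
    unfold vk
    omega

/-- A set of types has at most `2 V` elements. -/
theorem card_le : ∀ (F : Frst) (S : Finset (Ty F)), Sym S → S.card ≤ 2 * V F S
  | .mk n lam sub, S, h => by
    classical
    have h1 : ∀ k, (S.filter fun τ => tr τ = k).card ≤ 2 * vk S k := fun k =>
      lbk h k (card_le (sub k) _ (h.tt k))
    have h2 : S.card = ∑ k : Fin n, (S.filter fun τ => tr τ = k).card :=
      Finset.card_eq_sum_card_fiberwise fun τ _ => mem_univ _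
    have h3 := sum_le_prod fun k => vk S k
    rw [← V_mk' S] at h3
    calc S.card = ∑ k : Fin n, (S.filter fun τ => tr τ = k).card := h2
      _ ≤ ∑ k : Fin n, 2 * vk S k := Finset.sum_le_sum fun k _ => h1 k
      _ = 2 * ∑ k : Fin n, vk S k := (Finset.mul_sum _ _ _).symm
      _ ≤ 2 * V (.mk n lam sub) S := by omega

open Classical in
/-- Superadditivity in one tree. -/
theorem vk_sa {A B : Finset (Ty (.mk n lam sub))} (hA : Sym A) (hB : Sym B) (k : Fin n)
    (hd : ∀ τ ∈ A, tr τ = k → τ ∉ B)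
    (ih : ∀ A B : Finset (Ty (sub k)), Sym A → Sym B → Disjoint A B →
      V (sub k) A + V (sub k) B ≤ V (sub k) (A ∪ B)) :
    vk A k + vk B k ≤ vk (A ∪ B) k := by
  -- the broken pairs
  set C : Finset (Ty (sub k)) := (sl A k true ∩ sl B k false) ∪ (sl A k false ∩ sl B k true) with hC
  have hCs : Sym C := by
    intro τ hτ
    rw [hC, mem_union, mem_inter, mem_inter, mem_sl, mem_sl, mem_sl, mem_sl] at hτ ⊢
    rw [hA.nd_iff, hB.nd_iff, hA.nd_iff, hB.nd_iff]
    rcases hτ with h | h
    · exact Or.inr h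
    · exact Or.inl h
  have hno : ∀ s (τ : Ty (sub k)), nd k s (some τ) ∈ A → nd k s (some τ) ∉ B := fun s τ h1 =>
    hd _ h1 rfl
  have e1 : tt (A ∪ B) k = (tt A k ∪ tt B k) ∪ C := by
    ext τ
    simp only [mem_tt, mem_union, hC, mem_inter, mem_sl]
    tauto
  have d1 : Disjoint (tt A k) (tt B k) := by
    rw [Finset.disjoint_left]
    intro τ h1 h2
    exact hno _ _ (mem_tt.1 h1).1 (mem_tt.1 h2).1
  have d2 : Disjoint (tt A k ∪ tt B k) C := by
    rw [Finset.disjoint_left]
    intro τ h1 h2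
    simp only [mem_tt, mem_union, hC, mem_inter, mem_sl] at h1 h2
    have h3 := hno true τ
    have h4 := hno false τ
    tauto
  have i1 := ih _ _ (hA.tt k) (hB.tt k) d1
  have i2 := ih _ _ ((hA.tt k).union (hB.tt k)) hCs d2
  have i3 := card_le (sub k) C hCs
  have i4 : (rr A k).card + (rr B k).card ≤ (rr (A ∪ B) k).card + C.card := by
    have d3 : Disjoint (rr A k) (rr B k) := by
      rw [Finset.disjoint_left]
      intro τ h1 h2
      exact hno _ _ (mem_rr.1 h1).1 (mem_rr.1 h2).1
    rw [← card_union_of_disjoint d3]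
    refine le_trans (card_le_card ?_) (card_union_le _ _)
    intro τ hτ
    simp only [mem_rr, mem_union, hC, mem_inter, mem_sl] at hτ ⊢
    tauto
  have i5 : bb A k + bb B k ≤ bb (A ∪ B) k := by
    have h3 : nd k false none ∈ A → nd k false none ∉ B := fun h1 => hd _ h1 rfl
    unfold bb
    by_cases ha : nd k false none ∈ A
    · rw [if_pos ha, if_neg (h3 ha), if_pos (mem_union_left _ ha)]
    · rw [if_neg ha]
      by_cases hb : nd k false none ∈ B
      · rw [if_pos hb, if_pos (mem_union_right _ hb)]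
      · rw [if_neg hb]; exact Nat.zero_le _
  unfold vk
  rw [e1]
  omega

open Classical in
/-- Superadditivity. -/
theorem V_sa : ∀ (F : Frst) (A B : Finset (Ty F)), Sym A → Sym B → Disjoint A B →
    V F A + V F B ≤ V F (A ∪ B)
  | .mk n lam sub, A, B, hA, hB, hd => by
    have h1 := prod_sa (vk A) (vk B) (vk (A ∪ B)) fun k =>
      vk_sa hA hB k (fun τ h1 _ => Finset.disjoint_left.1 hd h1) (V_sa (sub k))
    rw [← V_mk', ← V_mk', ← V_mk'] at h1
    omega

theorem vk_mono {A B : Finset (Ty (.mk n lam sub))} (hA : Sym A) (hB : Sym B) (h : A ⊆ B)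
    (k : Fin n) : vk A k ≤ vk B k := by
  classical
  have h1 := vk_sa hA (hB.sdiff hA) k (fun τ h1 _ h2 => (mem_sdiff.1 h2).2 h1) (V_sa (sub k))
  rw [Finset.union_sdiff_of_subset h] at h1
  omega

theorem V_mono {F : Frst} {A B : Finset (Ty F)} (hA : Sym A) (hB : Sym B) (h : A ⊆ B) :
    V F A ≤ V F B := by
  classical
  have h1 := V_sa F A (B \ A) hA (hB.sdiff hA) disjoint_sdiff
  rw [Finset.union_sdiff_of_subset h] at h1
  omega

/-- The weight is less than `2 ^ dim`. -/
theorem V_lt : ∀ (F : Frst) (S : Finset (Ty F)), Sym S → V F S + 1 ≤ 2 ^ dim F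
  | .mk n lam sub, S, h => by
    classical
    have key : ∀ k : Fin n, 1 + vk S k ≤ 2 ^ (1 + dim (sub k)) := by
      intro k
      set R : Finset (Ty (sub k)) := (sl S k false \ sl S k true) ∪ (sl S k true \ sl S k false)
        with hR
      have hRs : Sym R := by
        intro τ hτ
        rw [hR, mem_union, mem_sdiff, mem_sdiff, mem_sl, mem_sl] at hτ ⊢
        rw [h.nd_iff, h.nd_iff]
        rcases hτ with h | h
        · exact Or.inr h
        · exact Or.inl h
      have hd : Disjoint (tt S k) R := by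
        rw [Finset.disjoint_left]
        intro τ h1 h2
        simp only [mem_tt, mem_union, hR, mem_sdiff, mem_sl] at h1 h2
        tauto
      have h1 := V_sa (sub k) _ _ (h.tt k) hRs hd
      have h2 := card_le (sub k) R hRs
      have h3 : (rr S k).card ≤ R.card := card_le_card subset_union_left
      have h4 := V_lt (sub k) _ ((h.tt k).union hRs)
      have h5 : bb S k ≤ 1 := by unfold bb; split_ifs <;> omega
      rw [pow_add, pow_one]
      unfold vk
      omega
    have e1 : dim (.mk n lam sub) = ∑ k : Fin n, (1 + dim (sub k)) := rfl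
    rw [V_mk', e1, ← Finset.prod_pow_eq_pow_sum]
    exact Finset.prod_le_prod' fun k _ => key k

/-- `τ` passes through the node `P`. -/
def thr : (F : Frst) → Idx F → Ty F → Prop
  | .mk _ _ sub, P, τ => match P with
    | ⟨k, none⟩ => tr τ = k
    | ⟨k, some P'⟩ => ∃ s τ', τ = nd k s (some τ') ∧ thr (sub k) P' τ'

/-- All nodes strictly above `P` are closed for the set `Z`. -/
def clo : (F : Frst) → Idx F → Set (Ty F) → Prop
  | .mk _ _ sub, P, Z => match P with
    | ⟨_, none⟩ => True
    | ⟨k, some P'⟩ => (∀ τ', nd k true (some τ') ∈ Z ↔ nd k false (some τ') ∈ Z) ∧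
        (∀ s, nd k s none ∉ Z) ∧ clo (sub k) P' {τ' | nd k true (some τ') ∈ Z}

theorem thr_none (k : Fin n) (τ : Ty (.mk n lam sub)) :
    thr (.mk n lam sub) (ix k none) τ ↔ tr τ = k := Iff.rfl

theorem thr_some (k : Fin n) (P : Idx (sub k)) (τ : Ty (.mk n lam sub)) :
    thr (.mk n lam sub) (ix k (some P)) τ ↔ ∃ s τ', τ = nd k s (some τ') ∧ thr (sub k) P τ' :=
  Iff.rfl

theorem thr_some' (k : Fin n) (P : Idx (sub k)) (s : Bool) (τ : Ty (sub k)) :
    thr (.mk n lam sub) (ix k (some P)) (nd k s (some τ)) ↔ thr (sub k) P τ := by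
  rw [thr_some]
  constructor
  · rintro ⟨s', τ', h1, h2⟩
    rw [nd_inj] at h1
    obtain ⟨-, h1⟩ := h1
    rw [Option.some.injEq] at h1
    rwa [h1]
  · intro h
    exact ⟨s, τ, rfl, h⟩

theorem clo_some (k : Fin n) (P : Idx (sub k)) (Z : Set (Ty (.mk n lam sub))) :
    clo (.mk n lam sub) (ix k (some P)) Z ↔
      (∀ τ', nd k true (some τ') ∈ Z ↔ nd k false (some τ') ∈ Z) ∧
        (∀ s, nd k s none ∉ Z) ∧ clo (sub k) P {τ' | nd k true (some τ') ∈ Z} := Iff.rfl

theorem thr_cpl : ∀ (F : Frst) (P : Idx F) (τ : Ty F), thr F P (cpl F τ) ↔ thr F P τ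
  | .mk n lam sub, ⟨k, none⟩, τ => Iff.rfl
  | .mk n lam sub, ⟨k, some P⟩, τ => by
    obtain ⟨l, s, o, rfl⟩ := nd_cases τ
    show thr (.mk n lam sub) (ix k (some P)) _ ↔ thr (.mk n lam sub) (ix k (some P)) _
    rw [cpl_nd]
    constructor
    · intro h
      rw [thr_some] at h
      obtain ⟨s', τ', h1, h2⟩ := h
      have hl : l = k := congrArg tr h1
      subst hl
      rw [nd_inj] at h1
      cases o with
      | none => simp at h1
      | some τ'' =>
        rw [thr_some']
        obtain ⟨-, h1⟩ := h1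
        rw [Option.map_some, Option.some.injEq] at h1
        rw [← h1, thr_cpl] at h2
        exact h2
    · intro h
      rw [thr_some] at h
      obtain ⟨s', τ', h1, h2⟩ := h
      have hl : l = k := congrArg tr h1
      subst hl
      rw [nd_inj] at h1
      obtain ⟨-, rfl⟩ := h1
      rw [Option.map_some, thr_some', thr_cpl]
      exact h2

/-- Products. -/
theorem prod_split {S1 S2 Z : Finset (Ty (.mk n lam sub))} (k : Fin n)
    (hk : vk S1 k + vk S2 k + 1 ≤ vk Z k) (h1 : ∀ l, vk S1 l ≤ vk Z l)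
    (h2 : ∀ l, vk S2 l ≤ vk Z l) : V _ S1 + V _ S2 + 1 ≤ V _ Z := by
  classical
  have e : ∀ S : Finset (Ty (.mk n lam sub)),
      V _ S + 1 = (1 + vk S k) * ∏ l ∈ univ.erase k, (1 + vk S l) := by
    intro S
    rw [V_mk', Finset.mul_prod_erase univ (fun l => 1 + vk S l) (mem_univ k)]
  have r1 : ∏ l ∈ univ.erase k, (1 + vk S1 l) ≤ ∏ l ∈ univ.erase k, (1 + vk Z l) :=
    Finset.prod_le_prod' fun l _ => by have := h1 l; omega
  have r2 : ∏ l ∈ univ.erase k, (1 + vk S2 l) ≤ ∏ l ∈ univ.erase k, (1 + vk Z l) :=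
    Finset.prod_le_prod' fun l _ => by have := h2 l; omega
  have f1 := e S1
  have f2 := e S2
  have f3 := e Z
  set R := ∏ l ∈ univ.erase k, (1 + vk Z l)
  have g1 : V _ S1 + 1 ≤ (1 + vk S1 k) * R := f1 ▸ Nat.mul_le_mul le_rfl r1
  have g2 : V _ S2 + 1 ≤ (1 + vk S2 k) * R := f2 ▸ Nat.mul_le_mul le_rfl r2
  have g3 : (1 + vk S1 k) * R + (1 + vk S2 k) * R ≤ (1 + vk Z k) * R := by
    rw [← add_mul]
    exact Nat.mul_le_mul (by omega) le_rfl
  omega

open Classical in
/-- The splitting inequality. -/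
theorem V_split : ∀ (F : Frst) (P : Idx F) (Z S1 S2 : Finset (Ty F)), Sym Z → Sym S1 → Sym S2 →
    S1 ⊆ Z → S2 ⊆ Z → clo F P (Z : Set (Ty F)) → (∀ τ ∈ S1, thr F P τ → τ ∉ S2) →
    (∃ τ ∈ Z, thr F P τ ∧ τ ∉ S1 ∧ τ ∉ S2) → V F S1 + V F S2 + 1 ≤ V F Z
  | .mk n lam sub, P, Z, S1, S2, hZ, hS1, hS2, h1, h2, hc, hd, hm => by
    obtain ⟨τ0, hτZ, hτt, hτ1, hτ2⟩ := hm
    obtain ⟨k, o⟩ := P
    cases o with
    | none =>
      change ∀ τ ∈ S1, tr τ = k → τ ∉ S2 at hd
      change tr τ0 = k at hτt
      refine prod_split k ?_ (fun l => vk_mono hS1 hZ h1 l) (fun l => vk_mono hS2 hZ h2 l)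
      set D : Finset (Ty (.mk n lam sub)) := {τ0, cpl _ τ0} with hD
      have hDs : Sym D := by
        intro τ hτ
        rw [hD, mem_insert, mem_singleton] at hτ ⊢
        rcases hτ with rfl | rfl
        · exact Or.inr rfl
        · rw [cpl_cpl]; exact Or.inl rfl
      have hτt' : tr (cpl _ τ0) = k := hτt
      have hDk : ∀ τ ∈ D, tr τ = k := by
        intro τ hτ
        rw [hD, mem_insert, mem_singleton] at hτ
        rcases hτ with rfl | rfl
        · exact hτt
        · exact hτt'
      have hDn : ∀ τ ∈ D, τ ∉ S1 ∧ τ ∉ S2 := by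
        intro τ hτ
        rw [hD, mem_insert, mem_singleton] at hτ
        rcases hτ with rfl | rfl
        · exact ⟨hτ1, hτ2⟩
        · rw [hS1.iff, hS2.iff]; exact ⟨hτ1, hτ2⟩
      have hDZ : D ⊆ Z := by
        intro τ hτ
        rw [hD, mem_insert, mem_singleton] at hτ
        rcases hτ with rfl | rfl
        · exact hτZ
        · exact hZ _ hτZ
      have a1 := vk_sa hS1 hS2 k hd (V_sa (sub k))
      have a2 := vk_sa (hS1.union hS2) hDs k (by
        intro τ hτ _ hτD
        rcases mem_union.1 hτ with h | h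
        · exact (hDn τ hτD).1 h
        · exact (hDn τ hτD).2 h) (V_sa (sub k))
      have a3 := vk_mono ((hS1.union hS2).union hDs) hZ
        (union_subset (union_subset h1 h2) hDZ) k
      have a4 := lbk hDs k (card_le (sub k) _ (hDs.tt k))
      have a5 : (D.filter fun τ => tr τ = k) = D := Finset.filter_true_of_mem hDk
      have a6 : D.card = 2 := Finset.card_pair fun h => cpl_ne _ τ0 h.symm
      rw [a5, a6] at a4
      omega
    | some P =>
      change clo (.mk n lam sub) (ix k (some P)) Z at hc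
      change ∀ τ ∈ S1, thr (.mk n lam sub) (ix k (some P)) τ → τ ∉ S2 at hd
      change thr (.mk n lam sub) (ix k (some P)) τ0 at hτt
      rw [clo_some] at hc
      obtain ⟨c1, c2, c3⟩ := hc
      set Y : Finset (Ty (.mk n lam sub)) :=
        Z.filter (fun τ => ¬ thr (.mk n lam sub) (ix k (some P)) τ) with hY
      have hYs : Sym Y := by
        intro τ hτ
        rw [hY, mem_filter] at hτ ⊢
        rw [thr_cpl]
        exact ⟨hZ τ hτ.1, hτ.2⟩
      set A : Finset (Ty (.mk n lam sub)) := S1 ∪ Y with hA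
      set B : Finset (Ty (.mk n lam sub)) := S2 ∪ Y with hB
      have hAs : Sym A := hS1.union hYs
      have hBs : Sym B := hS2.union hYs
      have hAZ : A ⊆ Z := union_subset h1 (filter_subset _ _)
      have hBZ : B ⊆ Z := union_subset h2 (filter_subset _ _)
      have hin : ∀ τ, thr (.mk n lam sub) (ix k (some P)) τ → τ ∉ Y := by
        intro τ h3 h4
        exact (mem_filter.1 h4).2 h3
      have hAd : ∀ τ ∈ A, thr (.mk n lam sub) (ix k (some P)) τ → τ ∉ B := by
        intro τ h3 h4 h5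
        rcases mem_union.1 h3 with h6 | h6
        · rcases mem_union.1 h5 with h7 | h7
          · exact hd τ h6 h4 h7
          · exact hin τ h4 h7
        · exact hin τ h4 h6
      have hfull : ∀ τ ∈ Z, ¬ thr (.mk n lam sub) (ix k (some P)) τ → τ ∈ A ∧ τ ∈ B :=
        fun τ h3 h4 => ⟨mem_union_right _ (mem_filter.2 ⟨h3, h4⟩),
          mem_union_right _ (mem_filter.2 ⟨h3, h4⟩)⟩
      have hτA : τ0 ∉ A := fun h3 => by
        rcases mem_union.1 h3 with h6 | h6
        · exact hτ1 h6
        · exact hin τ0 hτt h6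
      have hτB : τ0 ∉ B := fun h3 => by
        rcases mem_union.1 h3 with h6 | h6
        · exact hτ2 h6
        · exact hin τ0 hτt h6
      have m1 : V _ S1 ≤ V _ A := V_mono hS1 hAs subset_union_left
      have m2 : V _ S2 ≤ V _ B := V_mono hS2 hBs subset_union_left
      suffices hmain : V _ A + V _ B + 1 ≤ V _ Z by omega
      refine prod_split k ?_ (fun l => vk_mono hAs hZ hAZ l) (fun l => vk_mono hBs hZ hBZ l)
      rw [thr_some] at hτt
      obtain ⟨s0, c, rfl, hcP⟩ := hτt
      have hZb : ∀ s, nd k s none ∉ Z := fun s h3 => c2 s h3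
      have hZtf : ∀ τ', nd k true (some τ') ∈ Z ↔ nd k false (some τ') ∈ Z := c1
      have hZs : ∀ s s' (τ' : Ty (sub k)), nd k s (some τ') ∈ Z → nd k s' (some τ') ∈ Z := by
        intro s s' τ' h3
        cases s <;> cases s'
        · exact h3
        · exact (hZtf τ').2 h3
        · exact (hZtf τ').1 h3
        · exact h3
      set Q := tt Z k with hQ
      set Q1 := tt A k with hQ1
      set Q2 := tt B k with hQ2
      have hQm : ∀ s (τ' : Ty (sub k)), nd k s (some τ') ∈ Z → τ' ∈ Q := fun s τ' h3 =>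
        mem_tt.2 ⟨hZs _ _ _ h3, hZs _ _ _ h3⟩
      set C := Q \ (Q1 ∪ Q2) with hC
      have hQs : Sym Q := hZ.tt k
      have hQ1s : Sym Q1 := hAs.tt k
      have hQ2s : Sym Q2 := hBs.tt k
      have hCs : Sym C := hQs.sdiff (hQ1s.union hQ2s)
      have hcC : c ∈ C := by
        rw [hC, mem_sdiff, mem_union]
        refine ⟨hQm s0 c hτZ, ?_⟩
        rintro (h3 | h3)
        · have h4 := mem_tt.1 h3
          cases s0
          · exact hτA h4.2
          · exact hτA h4.1
        · have h4 := mem_tt.1 h3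
          cases s0
          · exact hτB h4.2
          · exact hτB h4.1
      set D : Finset (Ty (sub k)) := {c, cpl _ c} with hD
      have hDs : Sym D := by
        intro τ hτ
        rw [hD, mem_insert, mem_singleton] at hτ ⊢
        rcases hτ with rfl | rfl
        · exact Or.inr rfl
        · rw [cpl_cpl]; exact Or.inl rfl
      have hC's : Sym (C \ D) := hCs.sdiff hDs
      have hcD : c ∈ D := by rw [hD]; exact mem_insert_self _ _
      have hdis : ∀ s (τ' : Ty (sub k)), nd k s (some τ') ∈ A → nd k s (some τ') ∈ B →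
          ¬ thr (sub k) P τ' := by
        intro s τ' h3 h4 h5
        exact hAd _ h3 ((thr_some' k P s τ').2 h5) h4
      have i1 := V_split (sub k) P Q (Q1 ∪ (C \ D)) Q2 hQs (hQ1s.union hC's) hQ2s
        (union_subset (fun τ' h3 => hQm true τ' (hAZ (mem_tt.1 h3).1))
          (sdiff_subset.trans sdiff_subset))
        (fun τ' h3 => hQm true τ' (hBZ (mem_tt.1 h3).1))
        (by
          have e3 : {τ' | nd k true (some τ') ∈ (Z : Set (Ty (.mk n lam sub)))} =
              (Q : Set (Ty (sub k))) := by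
            ext τ'
            constructor
            · intro h3; exact hQm true τ' h3
            · intro h3; exact (mem_tt.1 h3).1
          rw [← e3]
          exact c3)
        (by
          intro τ' h3 h4 h5
          rcases mem_union.1 h3 with h6 | h6
          · exact hdis true τ' (mem_tt.1 h6).1 (mem_tt.1 h5).1 h4
          · exact (mem_sdiff.1 (mem_sdiff.1 h6).1).2 (mem_union_right _ h5))
        ⟨c, (mem_sdiff.1 hcC).1, hcP, fun h3 => by
          rcases mem_union.1 h3 with h6 | h6
          · exact (mem_sdiff.1 hcC).2 (mem_union_left _ h6)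
          · exact (mem_sdiff.1 h6).2 hcD,
          fun h3 => (mem_sdiff.1 hcC).2 (mem_union_right _ h3)⟩
      have i2 := V_sa (sub k) Q1 (C \ D) hQ1s hC's (by
        rw [Finset.disjoint_left]
        intro τ' h3 h4
        exact (mem_sdiff.1 (mem_sdiff.1 h4).1).2 (mem_union_left _ h3))
      have i3 := card_le (sub k) (C \ D) hC's
      have i4 : C.card ≤ (C \ D).card + 2 :=
        le_trans (Finset.card_le_card_sdiff_add_card (s := C) (t := D))
          (Nat.add_le_add_left Finset.card_le_two _)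
      have hrA : ∀ τ' ∈ rr A k, τ' ∈ C := by
        intro τ' h3
        obtain ⟨h4, h5⟩ := mem_rr.1 h3
        refine mem_sdiff.2 ⟨hQm _ _ (hAZ h4), fun h6 => ?_⟩
        rcases mem_union.1 h6 with h7 | h7
        · exact h5 (mem_tt.1 h7).1
        · have h8 := hdis false τ' h4 (mem_tt.1 h7).2
          exact h5 (hfull _ (hZs _ _ _ (hAZ h4)) (fun h9 => h8 ((thr_some' k P _ τ').1 h9))).1
      have hrB : ∀ τ' ∈ rr B k, τ' ∈ C := by
        intro τ' h3
        obtain ⟨h4, h5⟩ := mem_rr.1 h3
        refine mem_sdiff.2 ⟨hQm _ _ (hBZ h4), fun h6 => ?_⟩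
        rcases mem_union.1 h6 with h7 | h7
        · have h8 := hdis false τ' (mem_tt.1 h7).2 h4
          exact h5 (hfull _ (hZs _ _ _ (hBZ h4)) (fun h9 => h8 ((thr_some' k P _ τ').1 h9))).2
        · exact h5 (mem_tt.1 h7).1
      have hrd : Disjoint (rr A k) (rr B k) := by
        rw [Finset.disjoint_left]
        intro τ' h3 h4
        obtain ⟨h5, h6⟩ := mem_rr.1 h3
        obtain ⟨h7, -⟩ := mem_rr.1 h4
        have h8 := hdis false τ' h5 h7
        exact h6 (hfull _ (hZs _ _ _ (hAZ h5)) (fun h9 => h8 ((thr_some' k P _ τ').1 h9))).1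
      obtain ⟨e, heC, heA, heB⟩ : ∃ e ∈ C, e ∉ rr A k ∧ e ∉ rr B k := by
        cases s0
        · exact ⟨c, hcC, fun h3 => hτA (mem_rr.1 h3).1, fun h3 => hτB (mem_rr.1 h3).1⟩
        · refine ⟨cpl _ c, hCs c hcC, fun h3 => hτA ?_, fun h3 => hτB ?_⟩
          · have h4 := (mem_rr.1 h3).1
            rw [hAs.nd_iff] at h4
            exact h4
          · have h4 := (mem_rr.1 h3).1
            rw [hBs.nd_iff] at h4
            exact h4
      have i5 : (rr A k).card + (rr B k).card + 1 ≤ C.card := by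
        rw [← card_union_of_disjoint hrd]
        have h3 : rr A k ∪ rr B k ⊆ C.erase e := by
          intro τ' h4
          rw [mem_erase]
          rcases mem_union.1 h4 with h5 | h5
          · exact ⟨fun h6 => heA (h6 ▸ h5), hrA τ' h5⟩
          · exact ⟨fun h6 => heB (h6 ▸ h5), hrB τ' h5⟩
        have h4 := card_le_card h3
        rw [card_erase_of_mem heC] at h4
        have h5 : 0 < C.card := card_pos.2 ⟨e, heC⟩
        omega
      have j1 : rr Z k = ∅ := by
        rw [Finset.eq_empty_iff_forall_notMem]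
        intro τ' h3
        obtain ⟨h4, h5⟩ := mem_rr.1 h3
        exact h5 (hZs _ _ _ h4)
      have j2 : bb Z k = 0 := if_neg (hZb false)
      have j3 : bb A k = 0 := if_neg fun h3 => hZb false (hAZ h3)
      have j4 : bb B k = 0 := if_neg fun h3 => hZb false (hBZ h3)
      show 2 * V (sub k) Q1 + (rr A k).card + bb A k + (2 * V (sub k) Q2 + (rr B k).card + bb B k)
        + 1 ≤ 2 * V (sub k) Q + (rr Z k).card + bb Z k
      rw [j1, j2, j3, j4, card_empty]
      omega

end Frst

end SpF
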