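import Pool.Agent.SpF.Comb

/-!
# Rooted forests: the functionals of the types, threshold splittings, colourings
-/

set_option autoImplicit false

open scoped BigOperators
open Finset

namespace SpF

namespace Frst

variable {n : ℕ} {lam : Fin n → ℝ} {sub : Fin n → Frst}

/-- The least mark of a tree whose root has the mark `m`. -/
noncomputable def mu : (F : Frst) → ℝ → ℝ
  | .mk n lam sub, m => ⨅ o : Option (Fin n), o.elim m (fun k => mu (sub k) (lam k))

theorem mu_le_self (F : Frst) (m : ℝ) : mu F m ≤ m := by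
  cases F with
  | mk n lam sub =>
    unfold mu
    exact ciInf_le (Set.finite_range _).bddBelow none

theorem mu_le_sub (m : ℝ) (k : Fin n) : mu (.mk n lam sub) m ≤ mu (sub k) (lam k) := by
  conv_lhs => unfold mu
  exact ciInf_le (Set.finite_range _).bddBelow (some k)

theorem mu_eq (m : ℝ) : mu (.mk n lam sub) m = m ∨ ∃ k, mu (.mk n lam sub) m = mu (sub k) (lam k) := by
  obtain ⟨o, ho⟩ := exists_eq_ciInf_of_finite
    (f := fun o : Option (Fin n) => o.elim m (fun k => mu (sub k) (lam k)))
  have h1 : mu (.mk n lam sub) m = ⨅ o : Option (Fin n), o.elim m (fun k => mu (sub k) (lam k)) := by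
    conv_lhs => unfold mu
  cases o with
  | none => left; rw [h1, ← ho]; rfl
  | some k => right; exact ⟨k, by rw [h1, ← ho]; rfl⟩

/-- All marks are positive. -/
def PosF : Frst → Prop
  | .mk n lam sub => ∀ k : Fin n, 0 < lam k ∧ PosF (sub k)

theorem mu_pos : ∀ (F : Frst), PosF F → ∀ m : ℝ, 0 < m → 0 < mu F m
  | .mk n lam sub, h, m, hm => by
    rcases mu_eq (lam := lam) (sub := sub) m with h1 | ⟨k, h1⟩
    · rw [h1]; exact hm
    · rw [h1]; exact mu_pos (sub k) (h k).2 _ (h k).1

/-- The part of the first member in the functional of a type. -/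
noncomputable def lo : (F : Frst) → ℝ → (Idx F → ℝ) → ℝ → Ty F → ℝ
  | .mk _ lam sub, a, x, c, τ => match τ with
    | ⟨k, true, none⟩ => -(x (ix k none) - a)
    | ⟨k, false, none⟩ => x (ix k none) + mu (sub k) (lam k) * c
    | ⟨k, true, some τ'⟩ =>
        -(x (ix k none) - a) + lo (sub k) (x (ix k none)) (fun v => x (ix k (some v))) c τ'
    | ⟨k, false, some τ'⟩ => lo (sub k) (x (ix k none)) (fun v => x (ix k (some v))) c τ'

/-- The functional of a type. -/
noncomputable def Ph (F : Frst) (a : ℝ) (x : Idx F → ℝ) (c : ℝ) (a' : ℝ) (x' : Idx F → ℝ) (c' : ℝ)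
    (τ : Ty F) : ℝ := lo F a x c τ + lo F a' x' c' (cpl F τ)

section

variable (a : ℝ) (x : Idx (.mk n lam sub) → ℝ) (c : ℝ) (a' : ℝ) (x' : Idx (.mk n lam sub) → ℝ)
  (c' : ℝ) (k : Fin n) (τ : Ty (sub k))

theorem Ph_tn : Ph (.mk n lam sub) a x c a' x' c' (nd k true none) =
    -(x (ix k none) - a) + (x' (ix k none) + mu (sub k) (lam k) * c') := rfl

theorem Ph_fn : Ph (.mk n lam sub) a x c a' x' c' (nd k false none) =
    (x (ix k none) + mu (sub k) (lam k) * c) + -(x' (ix k none) - a') := rfl

theorem Ph_ts : Ph (.mk n lam sub) a x c a' x' c' (nd k true (some τ)) =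
    -(x (ix k none) - a) + Ph (sub k) (x (ix k none)) (fun v => x (ix k (some v))) c
      (x' (ix k none)) (fun v => x' (ix k (some v))) c' τ := add_assoc _ _ _

theorem Ph_fs : Ph (.mk n lam sub) a x c a' x' c' (nd k false (some τ)) =
    -(x' (ix k none) - a') + Ph (sub k) (x (ix k none)) (fun v => x (ix k (some v))) c
      (x' (ix k none)) (fun v => x' (ix k (some v))) c' τ := add_left_comm _ _ _

end

theorem Ph_cpl (F : Frst) (a : ℝ) (x : Idx F → ℝ) (c : ℝ) (a' : ℝ) (x' : Idx F → ℝ) (c' : ℝ)
    (τ : Ty F) : Ph F a x c a' x' c' (cpl F τ) = Ph F a' x' c' a x c τ := by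
  unfold Ph
  rw [cpl_cpl]
  ring

variable {ι : Type}

/-- The value of the functional of `(κ, τ)` at a pair. -/
noncomputable def Fv {K : Type} (p q : K → ι → ℝ) (F : Frst) (a : ι → ℝ) (x : ι → Idx F → ℝ)
    (c : ι → ℝ) (κ : K) (τ : Ty F) (i j : ι) : ℝ :=
  p κ i + q κ j + Ph F (a i) (x i) (c i) (a j) (x j) (c j) τ

/-- The type `(κ, τ)` is present in `I`. -/
def Zr {K : Type} (p q : K → ι → ℝ) (F : Frst) (a : ι → ℝ) (x : ι → Idx F → ℝ)
    (c : ι → ℝ) (I : Finset ι) (κ : K) (τ : Ty F) : Prop :=
  ∃ i ∈ I, ∃ j ∈ I, Fv p q F a x c κ τ i j = 0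

theorem Fv_ex {K : Type} {p q : K → ι → ℝ} {F : Frst} {a : ι → ℝ} {x : ι → Idx F → ℝ}
    {c : ι → ℝ} {I : Finset ι} {κ : K} {τ : Ty F}
    (hN : ∀ i ∈ I, ∀ j ∈ I, 0 ≤ Fv p q F a x c κ τ i j) {i j i' j' : ι} (hi : i ∈ I)
    (hj : j ∈ I) (hi' : i' ∈ I) (hj' : j' ∈ I) (h : Fv p q F a x c κ τ i j = 0)
    (h' : Fv p q F a x c κ τ i' j' = 0) :
    Fv p q F a x c κ τ i j' = 0 ∧ Fv p q F a x c κ τ i' j = 0 := by
  have h1 := hN i hi j' hj'
  have h2 := hN i' hi' j hj
  have h3 : Fv p q F a x c κ τ i j' + Fv p q F a x c κ τ i' j =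
      Fv p q F a x c κ τ i j + Fv p q F a x c κ τ i' j' := by
    unfold Fv Ph; ring
  constructor <;> linarith

open Classical in
/-- The threshold splitting. -/
theorem geo : ∀ (F : Frst) (K : Type) (p q : K → ι → ℝ) (a : ι → ℝ) (x : ι → Idx F → ℝ)
    (c : ι → ℝ) (I : Finset ι) (m0 : ℝ), (∀ i ∈ I, 0 ≤ c i) →
    (∀ κ τ, ∀ i ∈ I, ∀ j ∈ I, 0 ≤ Fv p q F a x c κ τ i j) →
    (∀ κ, ∀ i ∈ I, ∀ j ∈ I, 0 < p κ i + q κ j + (a j + mu F m0 * c j) ∧
      0 < p κ i + q κ j + (a i + mu F m0 * c i)) →
    (∀ κ κ' τ, Zr p q F a x c I κ τ → Zr p q F a x c I κ' τ) →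
    (∃ κ τ, Zr p q F a x c I κ τ) →
    ∃ P : Idx F, clo F P {τ | ∃ κ, Zr p q F a x c I κ τ} ∧ ∃ J ⊆ I,
      (∀ κ τ, thr F P τ → Zr p q F a x c J κ τ → ¬ Zr p q F a x c (I \ J) κ τ) ∧
      ∃ κ τ, thr F P τ ∧ Zr p q F a x c I κ τ ∧ ¬ Zr p q F a x c J κ τ ∧
        ¬ Zr p q F a x c (I \ J) κ τ
  | .mk n lam sub, K, p, q, a, x, c, I, m0, hc, hN, hD, hF, hE => by
    obtain ⟨κ0, τ00, h00⟩ := hE
    obtain ⟨k, s00, o00, rfl⟩ := nd_cases τ00
    -- the threshold coordinate
    set g : ι → ℝ := fun i => x i (ix k none) - a i with hg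
    have hDk : ∀ κ, ∀ i ∈ I, ∀ j ∈ I, 0 < p κ i + q κ j + (a j + mu (sub k) (lam k) * c j) ∧
        0 < p κ i + q κ j + (a i + mu (sub k) (lam k) * c i) := by
      intro κ i hi j hj
      have h1 := hD κ i hi j hj
      have h2 : mu (.mk n lam sub) m0 ≤ mu (sub k) (lam k) := mu_le_sub m0 k
      have h3 := mul_le_mul_of_nonneg_right h2 (hc i hi)
      have h4 := mul_le_mul_of_nonneg_right h2 (hc j hj)
      constructor
      · linarith [h1.1]
      · linarith [h1.2]
    -- relation of a functional and its flip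
    have fl_s : ∀ κ (τ' : Ty (sub k)) i j,
        Fv p q (.mk n lam sub) a x c κ (nd k false (some τ')) i j =
        Fv p q (.mk n lam sub) a x c κ (nd k true (some τ')) i j + (g i - g j) := by
      intro κ τ' i j
      unfold Fv
      rw [Ph_ts, Ph_fs]
      simp only [hg]
      ring
    have fl_tn : ∀ κ i j, Fv p q (.mk n lam sub) a x c κ (nd k true none) i j + (g i - g j) =
        p κ i + q κ j + (a j + mu (sub k) (lam k) * c j) := by
      intro κ i j
      unfold Fv
      rw [Ph_tn]
      simp only [hg]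
      ring
    have fl_fn : ∀ κ i j, Fv p q (.mk n lam sub) a x c κ (nd k false none) i j + (g j - g i) =
        p κ i + q κ j + (a i + mu (sub k) (lam k) * c i) := by
      intro κ i j
      unfold Fv
      rw [Ph_fn]
      simp only [hg]
      ring
    -- comparison
    have cmp_t : ∀ κ o, ∀ i ∈ I, ∀ j ∈ I,
        Fv p q (.mk n lam sub) a x c κ (nd k true o) i j = 0 → g j ≤ g i := by
      intro κ o i hi j hj h
      cases o with
      | none =>
        have h1 := fl_tn κ i j
        have h2 := (hDk κ i hi j hj).1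
        linarith
      | some τ' =>
        have h1 := fl_s κ τ' i j
        have h2 := hN κ (nd k false (some τ')) i hi j hj
        linarith
    have cmp_f : ∀ κ o, ∀ i ∈ I, ∀ j ∈ I,
        Fv p q (.mk n lam sub) a x c κ (nd k false o) i j = 0 → g i ≤ g j := by
      intro κ o i hi j hj h
      cases o with
      | none =>
        have h1 := fl_fn κ i j
        have h2 := (hDk κ i hi j hj).2
        linarith
      | some τ' =>
        have h1 := fl_s κ τ' i j
        have h2 := hN κ (nd k true (some τ')) i hi j hj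
        linarith
    by_cases hA : ∃ κ s o, Zr p q (.mk n lam sub) a x c I κ (nd k s o) ∧
        ∀ τ', o = some τ' → ¬ Zr p q (.mk n lam sub) a x c I κ (nd k (!s) (some τ'))
    · obtain ⟨κ1, s1, o1, hz, hnf⟩ := hA
      refine ⟨ix k none, trivial, ?_⟩
      -- enough: a lower part `J` for `g`
      have key : ∀ J ⊆ I, (∀ i ∈ J, ∀ i' ∈ I \ J, g i < g i') →
          (¬ Zr p q (.mk n lam sub) a x c J κ1 (nd k s1 o1) ∧
            ¬ Zr p q (.mk n lam sub) a x c (I \ J) κ1 (nd k s1 o1)) →
          (∀ κ τ, thr (.mk n lam sub) (ix k none) τ → Zr p q (.mk n lam sub) a x c J κ τ →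
            ¬ Zr p q (.mk n lam sub) a x c (I \ J) κ τ) := by
        intro J hJ hlow _ κ τ hτ h1 h2
        obtain ⟨l, s, o, rfl⟩ := nd_cases τ
        rw [thr_none, tr_nd] at hτ
        subst hτ
        obtain ⟨i, hi, j, hj, h3⟩ := h1
        obtain ⟨i', hi', j', hj', h4⟩ := h2
        have hi'I := (mem_sdiff.1 hi').1
        have hj'I := (mem_sdiff.1 hj').1
        obtain ⟨h5, h6⟩ := Fv_ex (hN κ (nd l s o)) (hJ hi) (hJ hj) hi'I hj'I h3 h4
        cases s with
        | true =>
          have h7 := cmp_t κ o i (hJ hi) j' hj'I h5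
          have h8 := hlow i hi j' hj'
          linarith
        | false =>
          have h7 := cmp_f κ o i' hi'I j (hJ hj) h6
          have h8 := hlow j hj i' hi'
          linarith
      have hNz := hN κ1 (nd k s1 o1)
      cases s1 with
      | true =>
        have str : ∀ i ∈ I, ∀ j ∈ I,
            Fv p q (.mk n lam sub) a x c κ1 (nd k true o1) i j = 0 → g j < g i := by
          intro i hi j hj h
          refine lt_of_le_of_ne (cmp_t κ1 o1 i hi j hj h) fun he => ?_
          cases o1 with
          | none =>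
            have h1 := fl_tn κ1 i j
            have h2 := (hDk κ1 i hi j hj).1
            linarith
          | some τ' =>
            have h1 := fl_s κ1 τ' i j
            refine hnf τ' rfl ⟨i, hi, j, hj, ?_⟩
            show Fv p q (.mk n lam sub) a x c κ1 (nd k false (some τ')) i j = 0
            linarith
        set J := I.filter fun i => ∃ i' ∈ I, ∃ j ∈ I,
          Fv p q (.mk n lam sub) a x c κ1 (nd k true o1) i' j = 0 ∧ g i ≤ g j with hJ
        have hlow : ∀ i ∈ J, ∀ i' ∈ I \ J, g i < g i' := by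
          intro i hi i' hi'
          by_contra hcon
          push Not at hcon
          obtain ⟨-, i2, hi2, j2, hj2, h2, h3⟩ := mem_filter.1 hi
          exact (mem_sdiff.1 hi').2 (mem_filter.2 ⟨(mem_sdiff.1 hi').1, i2, hi2, j2, hj2, h2,
            hcon.trans h3⟩)
        have hnz : ¬ Zr p q (.mk n lam sub) a x c J κ1 (nd k true o1) ∧
            ¬ Zr p q (.mk n lam sub) a x c (I \ J) κ1 (nd k true o1) := by
          constructor
          · rintro ⟨i, hi, j, hj, h⟩
            obtain ⟨hiI, i2, hi2, j2, hj2, h2, h3⟩ := mem_filter.1 hi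
            have hjI := (mem_filter.1 hj).1
            have h4 := (Fv_ex hNz hiI hjI hi2 hj2 h h2).1
            have h5 := str i hiI j2 hj2 h4
            linarith
          · rintro ⟨i, hi, j, hj, h⟩
            exact (mem_sdiff.1 hj).2 (mem_filter.2 ⟨(mem_sdiff.1 hj).1, i, (mem_sdiff.1 hi).1, j,
              (mem_sdiff.1 hj).1, h, le_rfl⟩)
        exact ⟨J, filter_subset _ _, key J (filter_subset _ _) hlow hnz, κ1, nd k true o1, rfl, hz,
          hnz.1, hnz.2⟩
      | false =>
        have str : ∀ i ∈ I, ∀ j ∈ I,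
            Fv p q (.mk n lam sub) a x c κ1 (nd k false o1) i j = 0 → g i < g j := by
          intro i hi j hj h
          refine lt_of_le_of_ne (cmp_f κ1 o1 i hi j hj h) fun he => ?_
          cases o1 with
          | none =>
            have h1 := fl_fn κ1 i j
            have h2 := (hDk κ1 i hi j hj).2
            linarith
          | some τ' =>
            have h1 := fl_s κ1 τ' i j
            refine hnf τ' rfl ⟨i, hi, j, hj, ?_⟩
            show Fv p q (.mk n lam sub) a x c κ1 (nd k true (some τ')) i j = 0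
            linarith
        set J := I.filter fun i => ∃ i' ∈ I, ∃ j ∈ I,
          Fv p q (.mk n lam sub) a x c κ1 (nd k false o1) i' j = 0 ∧ g i ≤ g i' with hJ
        have hlow : ∀ i ∈ J, ∀ i' ∈ I \ J, g i < g i' := by
          intro i hi i' hi'
          by_contra hcon
          push Not at hcon
          obtain ⟨-, i2, hi2, j2, hj2, h2, h3⟩ := mem_filter.1 hi
          exact (mem_sdiff.1 hi').2 (mem_filter.2 ⟨(mem_sdiff.1 hi').1, i2, hi2, j2, hj2, h2,
            hcon.trans h3⟩)
        have hnz : ¬ Zr p q (.mk n lam sub) a x c J κ1 (nd k false o1) ∧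
            ¬ Zr p q (.mk n lam sub) a x c (I \ J) κ1 (nd k false o1) := by
          constructor
          · rintro ⟨i, hi, j, hj, h⟩
            obtain ⟨hjI, i2, hi2, j2, hj2, h2, h3⟩ := mem_filter.1 hj
            have hiI := (mem_filter.1 hi).1
            have h4 := (Fv_ex hNz hiI hjI hi2 hj2 h h2).2
            have h5 := str i2 hi2 j hjI h4
            linarith
          · rintro ⟨i, hi, j, hj, h⟩
            exact (mem_sdiff.1 hi).2 (mem_filter.2 ⟨(mem_sdiff.1 hi).1, i, (mem_sdiff.1 hi).1, j,
              (mem_sdiff.1 hj).1, h, le_rfl⟩)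
        exact ⟨J, filter_subset _ _, key J (filter_subset _ _) hlow hnz, κ1, nd k false o1, rfl, hz,
          hnz.1, hnz.2⟩
    · push Not at hA
      -- closed at `k`
      have hB : ∀ κ s o, Zr p q (.mk n lam sub) a x c I κ (nd k s o) →
          ∃ τ', o = some τ' ∧ Zr p q (.mk n lam sub) a x c I κ (nd k (!s) (some τ')) := hA
      set p' : K × Bool → ι → ℝ := fun κs i => p κs.1 i + (if κs.2 then - g i else 0) with hp'
      set q' : K × Bool → ι → ℝ := fun κs j => q κs.1 j + (if κs.2 then 0 else - g j) with hq'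
      set a' : ι → ℝ := fun i => x i (ix k none) with ha'
      set x' : ι → Idx (sub k) → ℝ := fun i v => x i (ix k (some v)) with hx'
      have hFv : ∀ κ s (τ' : Ty (sub k)) i j, Fv p' q' (sub k) a' x' c (κ, s) τ' i j =
          Fv p q (.mk n lam sub) a x c κ (nd k s (some τ')) i j := by
        intro κ s τ' i j
        cases s with
        | true =>
          unfold Fv
          rw [Ph_ts]
          simp only [hp', hq', ha', hx', hg, if_true]
          ring
        | false =>
          unfold Fv
          rw [Ph_fs]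
          simp only [hp', hq', ha', hx', hg, Bool.false_eq_true, if_false]
          ring
      have hZr : ∀ (J : Finset ι) κ s (τ' : Ty (sub k)), Zr p' q' (sub k) a' x' c J (κ, s) τ' ↔
          Zr p q (.mk n lam sub) a x c J κ (nd k s (some τ')) := by
        intro J κ s τ'
        unfold Zr
        simp only [hFv]
      have hno : ∀ κ s, ¬ Zr p q (.mk n lam sub) a x c I κ (nd k s none) := by
        intro κ s h
        obtain ⟨τ', h1, -⟩ := hB κ s none h
        exact absurd h1 (by simp)
      have hflip : ∀ κ s s' (τ' : Ty (sub k)),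
          Zr p q (.mk n lam sub) a x c I κ (nd k s (some τ')) →
          Zr p q (.mk n lam sub) a x c I κ (nd k s' (some τ')) := by
        intro κ s s' τ' h
        obtain ⟨τ'', h1, h2⟩ := hB κ s _ h
        rw [Option.some.injEq] at h1
        subst h1
        cases s <;> cases s'
        · exact h
        · exact h2
        · exact h2
        · exact h
      obtain ⟨P', hcl, J, hJ, hdisj, ⟨κ2, s2⟩, τ2, ht2, hz2, hn1, hn2⟩ :=
        geo (sub k) (K × Bool) p' q' a' x' c I (lam k) hc
          (by
            rintro ⟨κ, s⟩ τ' i hi j hj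
            rw [hFv]
            exact hN κ _ i hi j hj)
          (by
            rintro ⟨κ, s⟩ i hi j hj
            have hT : 0 < Fv p q (.mk n lam sub) a x c κ (nd k true none) i j :=
              lt_of_le_of_ne (hN κ _ i hi j hj) fun he => hno κ true ⟨i, hi, j, hj, he.symm⟩
            have hFl : 0 < Fv p q (.mk n lam sub) a x c κ (nd k false none) i j :=
              lt_of_le_of_ne (hN κ _ i hi j hj) fun he => hno κ false ⟨i, hi, j, hj, he.symm⟩
            have h1 := hDk κ i hi j hj
            unfold Fv at hT hFl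
            rw [Ph_tn] at hT
            rw [Ph_fn] at hFl
            cases s with
            | true =>
              simp only [hp', hq', ha', hg, if_true]
              constructor
              · linarith
              · linarith [h1.2]
            | false =>
              simp only [hp', hq', ha', hg, Bool.false_eq_true, if_false]
              constructor
              · linarith [h1.1]
              · linarith)
          (by
            rintro ⟨κ, s⟩ ⟨κ', s'⟩ τ' h
            rw [hZr] at h ⊢
            exact hflip κ' s s' τ' (hF κ κ' _ h))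
          (by
            obtain ⟨τ', h1, h2⟩ := hB κ0 s00 o00 h00
            subst h1
            exact ⟨(κ0, s00), τ', (hZr _ _ _ _).2 h00⟩)
      refine ⟨ix k (some P'), ?_, J, hJ, ?_, κ2, nd k s2 (some τ2), (thr_some' k P' s2 τ2).2 ht2,
        (hZr _ _ _ _).1 hz2, fun h => hn1 ((hZr _ _ _ _).2 h), fun h => hn2 ((hZr _ _ _ _).2 h)⟩
      · rw [clo_some]
        refine ⟨fun τ' => ⟨fun h => ?_, fun h => ?_⟩, fun s h => ?_, ?_⟩
        · obtain ⟨κ, h1⟩ := h
          exact ⟨κ, hflip κ _ _ τ' h1⟩
        · obtain ⟨κ, h1⟩ := h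
          exact ⟨κ, hflip κ _ _ τ' h1⟩
        · obtain ⟨κ, h1⟩ := h
          exact hno κ s h1
        · have e : {τ' | nd k true (some τ') ∈ {τ | ∃ κ, Zr p q (.mk n lam sub) a x c I κ τ}} =
              {τ' | ∃ κ, Zr p' q' (sub k) a' x' c I κ τ'} := by
            ext τ'
            constructor
            · rintro ⟨κ, h1⟩
              exact ⟨(κ, true), (hZr _ _ _ _).2 h1⟩
            · rintro ⟨⟨κ, s⟩, h1⟩
              exact ⟨κ, hflip κ s true τ' ((hZr _ _ _ _).1 h1)⟩
          rw [e]
          exact hcl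
      · intro κ τ hτ h1 h2
        rw [thr_some] at hτ
        obtain ⟨s, τ', rfl, h3⟩ := hτ
        exact hdisj (κ, s) τ' h3 ((hZr _ _ _ _).2 h1) ((hZr _ _ _ _).2 h2)

end Frst

end SpF
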